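import Mathlib

set_option autoImplicit false

/-!
Arithmetic of the nested gap system used in the construction of covers of hyperbolic space.

For a scale factor `L` (a multiple of `4`), a dimension `n` and a real `ρ > 0` put
`g j = ρ * L ^ j` and `a j = 4 * L ^ n * g j`.  The gap zone of level `j` consists of the open
`g j`-neighbourhoods of the points `a j * (m + 1/2)`.
-/

noncomputable section

namespace Pool.Agent.HypAsdim

/-- half-width of the gaps of level `j` -/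
def gw (L : ℕ) (ρ : ℝ) (j : ℤ) : ℝ := ρ * (L : ℝ) ^ j

/-- cell size of level `j` -/
def cs (n L : ℕ) (ρ : ℝ) (j : ℤ) : ℝ := 4 * (L : ℝ) ^ n * gw L ρ j

/-- `u` lies in the (open) gap zone of level `j` -/
def Gap (n L : ℕ) (ρ : ℝ) (j : ℤ) (u : ℝ) : Prop :=
  ∃ m : ℤ, |u - cs n L ρ j * ((m : ℝ) + 1 / 2)| < gw L ρ j

/-- `u` is an end point of the gap zone of level `j` -/
def Line (n L : ℕ) (ρ : ℝ) (j : ℤ) (u : ℝ) : Prop :=
  ∃ m : ℤ, |u - cs n L ρ j * ((m : ℝ) + 1 / 2)| = gw L ρ j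

/-- index of the cell of level `j` that contains `u` -/
def cell (n L : ℕ) (ρ : ℝ) (j : ℤ) (u : ℝ) : ℤ := ⌊u / cs n L ρ j + 1 / 2⌋

variable {n L : ℕ} {ρ : ℝ}

lemma gw_pos (hL : 4 ≤ L) (hρ : 0 < ρ) (j : ℤ) : 0 < gw L ρ j := by
  unfold gw
  have : (0:ℝ) < L := by exact_mod_cast (by omega : 0 < L)
  positivity

lemma one_le_pow_L (hL : 4 ≤ L) (n : ℕ) : (1:ℝ) ≤ (L:ℝ)^n := by
  have : (1:ℝ) ≤ L := by exact_mod_cast (by omega : 1 ≤ L)
  exact one_le_pow₀ this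

lemma cs_pos (hL : 4 ≤ L) (hρ : 0 < ρ) (j : ℤ) : 0 < cs n L ρ j := by
  unfold cs
  have := gw_pos hL hρ j
  have h1 := one_le_pow_L hL n
  positivity

lemma gw_le_cs (hL : 4 ≤ L) (hρ : 0 < ρ) (j : ℤ) : 4 * gw L ρ j ≤ cs n L ρ j := by
  unfold cs
  have := gw_pos hL hρ j
  have h1 := one_le_pow_L hL n
  nlinarith

lemma gw_add (hL : 4 ≤ L) (i : ℤ) (k : ℕ) : gw L ρ (i + k) = (L:ℝ)^k * gw L ρ i := by
  unfold gw
  have : (L:ℝ) ≠ 0 := by
    have : (0:ℝ) < L := by exact_mod_cast (by omega : 0 < L)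
    exact this.ne'
  rw [zpow_add₀ this, zpow_natCast]
  ring

lemma cs_add (hL : 4 ≤ L) (i : ℤ) (k : ℕ) : cs n L ρ (i + k) = (L:ℝ)^k * cs n L ρ i := by
  unfold cs
  rw [gw_add hL]
  ring

lemma gw_mono (hL : 4 ≤ L) (hρ : 0 < ρ) {i j : ℤ} (h : i ≤ j) : gw L ρ i ≤ gw L ρ j := by
  obtain ⟨k, rfl⟩ := Int.le.dest h
  rw [gw_add hL]
  have := gw_pos hL hρ i
  have h1 := one_le_pow_L hL k
  nlinarith

/-- gap centres of a coarser level are lattice points of a finer level -/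
lemma center_lattice (hL : 4 ≤ L) (h4 : 4 ∣ L) {i j : ℤ} (hij : i < j) (m : ℤ) :
    ∃ M : ℤ, cs n L ρ j * ((m:ℝ) + 1/2) = cs n L ρ i * M := by
  obtain ⟨k, hk⟩ := Int.le.dest (show i + 1 ≤ j by omega)
  obtain ⟨c, hc⟩ := h4
  have hj : j = i + ((k + 1 : ℕ) : ℤ) := by push_cast; omega
  refine ⟨(L:ℤ)^(k+1) * m + (L:ℤ)^k * (2 * c), ?_⟩
  rw [hj, cs_add hL]
  push_cast
  have : (L:ℝ) = 4 * c := by exact_mod_cast hc
  have h2 : (L:ℝ)^(k+1) = (L:ℝ)^k * (4 * c) := by rw [pow_succ, ← this]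
  rw [h2]
  ring

/-- distance from a lattice point to a gap centre of the same level -/
lemma half_le_dist_center (hL : 4 ≤ L) (hρ : 0 < ρ) (i : ℤ) (M m : ℤ) :
    cs n L ρ i / 2 ≤ |cs n L ρ i * M - cs n L ρ i * ((m:ℝ) + 1/2)| := by
  have hc := cs_pos (n := n) hL hρ i
  have : cs n L ρ i * M - cs n L ρ i * ((m:ℝ) + 1/2) = cs n L ρ i * ((M - m : ℤ) - 1/2) := by
    push_cast; ring
  rw [this, abs_mul, abs_of_pos hc]
  have h2 : (1/2 : ℝ) ≤ |((M - m : ℤ) : ℝ) - 1/2| := by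
    rcases le_or_gt (M - m) 0 with h | h
    · have : ((M - m : ℤ):ℝ) ≤ 0 := by exact_mod_cast h
      rw [abs_of_nonpos (by linarith)]
      linarith
    · have : (1:ℝ) ≤ ((M - m : ℤ):ℝ) := by exact_mod_cast h
      rw [abs_of_nonneg (by linarith)]
      linarith
  nlinarith

lemma gw_le_quarter (hL : 4 ≤ L) (hρ : 0 < ρ) {i j : ℤ} (hij : i ≤ j) (hjn : j ≤ i + n) :
    gw L ρ j ≤ cs n L ρ i / 4 := by
  have : gw L ρ j ≤ gw L ρ (i + n) := gw_mono hL hρ hjn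
  rw [gw_add hL] at this
  unfold cs
  linarith

/-- a point of a line of a coarser level is deep inside a cell of a finer level -/
lemma line_deep (hL : 4 ≤ L) (h4 : 4 ∣ L) (hρ : 0 < ρ) {i j : ℤ} (hij : i < j) {u : ℝ}
    (hu : Line n L ρ j u) : ∃ M : ℤ, |u - cs n L ρ i * M| ≤ cs n L ρ i / 4 := by
  obtain ⟨m, hm⟩ := hu
  obtain ⟨M, hM⟩ := center_lattice (n := n) (ρ := ρ) hL h4 hij m
  rw [hM] at hm
  rcases le_or_gt j (i + n) with hjn | hjn
  · exact ⟨M, by rw [hm]; exact gw_le_quarter hL hρ hij.le hjn⟩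
  · -- `gw j` is an integer multiple of `cs i`
    obtain ⟨k, hk⟩ := Int.le.dest (show i + n + 1 ≤ j by omega)
    obtain ⟨c, hc⟩ := h4
    have hj : j = i + ((n + (k + 1) : ℕ) : ℤ) := by push_cast; omega
    have hLc : (L:ℝ) = 4 * c := by exact_mod_cast hc
    have hg : gw L ρ j = cs n L ρ i * (((L:ℤ)^k * c : ℤ) : ℝ) := by
      rw [hj, gw_add hL]
      unfold cs
      push_cast
      have h2 : (L:ℝ)^(n + (k+1)) = (L:ℝ)^n * (L:ℝ)^k * (4 * c) := by
        rw [pow_add, pow_succ (L:ℝ) k, ← hLc]; ring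
      rw [h2]; ring
    have hci := cs_pos (n := n) hL hρ i
    rw [hg] at hm
    rcases abs_choice (u - cs n L ρ i * M) with h | h
    · refine ⟨M + (L:ℤ)^k * c, ?_⟩
      rw [h] at hm
      have : u - cs n L ρ i * ((M + (L:ℤ)^k * c : ℤ) : ℝ) = 0 := by
        push_cast at hm ⊢; linarith
      rw [this, abs_zero]; linarith
    · refine ⟨M - (L:ℤ)^k * c, ?_⟩
      rw [h] at hm
      have : u - cs n L ρ i * ((M - (L:ℤ)^k * c : ℤ) : ℝ) = 0 := by
        push_cast at hm ⊢; linarith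
      rw [this, abs_zero]; linarith

/-- near a lattice point there is no gap -/
lemma not_gap_of_near (hL : 4 ≤ L) (hρ : 0 < ρ) {i : ℤ} {u : ℝ} {M : ℤ}
    (h : |u - cs n L ρ i * M| ≤ cs n L ρ i / 2 - gw L ρ i) : ¬ Gap n L ρ i u := by
  rintro ⟨m, hm⟩
  have h1 := half_le_dist_center (n := n) hL hρ i M m
  have h2 : |cs n L ρ i * M - cs n L ρ i * ((m:ℝ) + 1/2)| ≤
      |u - cs n L ρ i * M| + |u - cs n L ρ i * ((m:ℝ) + 1/2)| := by
    have := abs_sub_le (cs n L ρ i * M) u (cs n L ρ i * ((m:ℝ) + 1/2))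
    rw [abs_sub_comm (cs n L ρ i * (M:ℝ)) u] at this
    exact this
  linarith

/-- near a point of a coarser line there is no gap of a finer level -/
lemma not_gap_near_line (hL : 4 ≤ L) (h4 : 4 ∣ L) (hn : 1 ≤ n) (hρ : 0 < ρ) {i j : ℤ}
    (hij : i < j) {u p : ℝ} (hp : Line n L ρ j p) (hup : |u - p| ≤ gw L ρ i) :
    ¬ Gap n L ρ i u := by
  obtain ⟨M, hM⟩ := line_deep hL h4 hρ hij hp
  have hg := gw_pos hL hρ i
  have h4' : (4:ℝ) ≤ (L:ℝ)^n := by
    have h1 : (4:ℝ) ≤ L := by exact_mod_cast hL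
    calc (4:ℝ) ≤ L := h1
      _ = (L:ℝ)^1 := (pow_one _).symm
      _ ≤ (L:ℝ)^n := pow_le_pow_right₀ (by linarith) hn
  have hc : 16 * gw L ρ i ≤ cs n L ρ i := by
    unfold cs; nlinarith
  apply not_gap_of_near (M := M) hL hρ
  have h2 := abs_sub_le u p (cs n L ρ i * M)
  linarith

/-- gap zones of different levels (at most `n` apart) are disjoint -/
lemma gap_disjoint (hL : 4 ≤ L) (h4 : 4 ∣ L) (hρ : 0 < ρ) {i j : ℤ} (hij : i < j)
    (hjn : j ≤ i + n) {u : ℝ} (hj : Gap n L ρ j u) : ¬ Gap n L ρ i u := by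
  obtain ⟨m, hm⟩ := hj
  obtain ⟨M, hM⟩ := center_lattice (n := n) (ρ := ρ) hL h4 hij m
  rw [hM] at hm
  have h1 := gw_le_quarter (n := n) hL hρ hij.le hjn
  have h2 := gw_le_cs (n := n) hL hρ i
  apply not_gap_of_near (M := M) hL hρ
  linarith

/-- two close points outside the gap zone lie in the same cell -/
lemma cell_eq (hL : 4 ≤ L) (hρ : 0 < ρ) {j : ℤ} {u v : ℝ} (hu : ¬ Gap n L ρ j u)
    (hv : ¬ Gap n L ρ j v) (huv : |u - v| < 2 * gw L ρ j) : cell n L ρ j u = cell n L ρ j v := by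
  have hc := cs_pos (n := n) hL hρ j
  -- wlog u ≤ v
  have key : ∀ u v : ℝ, ¬ Gap n L ρ j u → ¬ Gap n L ρ j v → |u - v| < 2 * gw L ρ j →
      cell n L ρ j v ≤ cell n L ρ j u := by
    intro u v hu hv huv
    by_contra hlt
    push Not at hlt
    -- `m := cell v - 1`, centre `cs * (m + 1/2)`
    set m : ℤ := cell n L ρ j v - 1 with hmdef
    have hvm : (cs n L ρ j) * ((m:ℝ) + 1/2) ≤ v := by
      have : ((cell n L ρ j v : ℤ):ℝ) ≤ v / cs n L ρ j + 1/2 := Int.floor_le _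
      have h2 : ((m:ℝ) + 1/2) ≤ v / cs n L ρ j := by rw [hmdef]; push_cast; linarith
      calc cs n L ρ j * ((m:ℝ) + 1/2) ≤ cs n L ρ j * (v / cs n L ρ j) := by
            apply mul_le_mul_of_nonneg_left h2 hc.le
        _ = v := by field_simp
    have hum : u < (cs n L ρ j) * ((m:ℝ) + 1/2) := by
      have : u / cs n L ρ j + 1/2 < ((cell n L ρ j u : ℤ):ℝ) + 1 := Int.lt_floor_add_one _
      have h3 : ((cell n L ρ j u : ℤ):ℝ) ≤ (m:ℝ) := by exact_mod_cast (by omega : cell n L ρ j u ≤ m)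
      have h2 : u / cs n L ρ j < (m:ℝ) + 1/2 := by linarith
      calc u = cs n L ρ j * (u / cs n L ρ j) := by field_simp
        _ < cs n L ρ j * ((m:ℝ) + 1/2) := by apply mul_lt_mul_of_pos_left h2 hc
    have h1 : gw L ρ j ≤ |u - cs n L ρ j * ((m:ℝ) + 1/2)| := by
      by_contra h; push Not at h; exact hu ⟨m, h⟩
    have h2 : gw L ρ j ≤ |v - cs n L ρ j * ((m:ℝ) + 1/2)| := by
      by_contra h; push Not at h; exact hv ⟨m, h⟩
    rw [abs_of_neg (by linarith)] at h1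
    rw [abs_of_nonneg (by linarith)] at h2
    have : |u - v| = v - u := by rw [abs_of_neg (by linarith)]; ring
    linarith
  exact le_antisymm (key v u hv hu (by rwa [abs_sub_comm])) (key u v hu hv huv)

/-- between a point in the gap zone and a point outside there is an end point -/
lemma exists_line_between {j : ℤ} {u v : ℝ} (hu : Gap n L ρ j u) (hv : ¬ Gap n L ρ j v) :
    ∃ p, Line n L ρ j p ∧ p ∈ Set.uIcc u v := by
  obtain ⟨m, hm⟩ := hu
  have hvm : gw L ρ j ≤ |v - cs n L ρ j * ((m:ℝ) + 1/2)| := by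
    by_contra h; push Not at h; exact hv ⟨m, h⟩
  have hg : 0 < gw L ρ j := lt_of_le_of_lt (abs_nonneg _) hm
  rcases le_total (cs n L ρ j * ((m:ℝ) + 1/2)) v with h | h
  · refine ⟨cs n L ρ j * ((m:ℝ) + 1/2) + gw L ρ j, ⟨m, ?_⟩, ?_⟩
    · rw [add_sub_cancel_left, abs_of_pos hg]
    · rw [abs_of_nonneg (by linarith)] at hvm
      have := (abs_lt.mp hm).2
      rw [Set.mem_uIcc]; left; constructor <;> linarith
  · refine ⟨cs n L ρ j * ((m:ℝ) + 1/2) - gw L ρ j, ⟨m, ?_⟩, ?_⟩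
    · rw [sub_right_comm, sub_self, zero_sub, abs_neg, abs_of_pos hg]
    · rw [abs_of_nonpos (by linarith)] at hvm
      have := (abs_lt.mp hm).1
      rw [Set.mem_uIcc]; right; constructor <;> linarith

/-- two close end points of the same level coincide -/
lemma line_eq (hL : 4 ≤ L) (hn : 1 ≤ n) (hρ : 0 < ρ) {j : ℤ} {p p' : ℝ} (hp : Line n L ρ j p)
    (hp' : Line n L ρ j p') (h : |p - p'| < 2 * gw L ρ j) : p = p' := by
  obtain ⟨m, hm⟩ := hp
  obtain ⟨m', hm'⟩ := hp'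
  have hg := gw_pos hL hρ j
  have hc := cs_pos (n := n) hL hρ j
  have h4' : (4:ℝ) ≤ (L:ℝ)^n := by
    have h1 : (4:ℝ) ≤ L := by exact_mod_cast hL
    calc (4:ℝ) ≤ L := h1
      _ = (L:ℝ)^1 := (pow_one _).symm
      _ ≤ (L:ℝ)^n := pow_le_pow_right₀ (by linarith) hn
  have hcg : 16 * gw L ρ j ≤ cs n L ρ j := by
    unfold cs; nlinarith
  have hmm : m = m' := by
    by_contra hne
    have h1 : (1:ℝ) ≤ |(m:ℝ) - m'| := by
      have : (1:ℤ) ≤ |m - m'| := Int.one_le_abs (sub_ne_zero.mpr hne)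
      exact_mod_cast this
    have h2 : cs n L ρ j ≤ |cs n L ρ j * ((m:ℝ) + 1/2) - cs n L ρ j * ((m':ℝ) + 1/2)| := by
      have : cs n L ρ j * ((m:ℝ) + 1/2) - cs n L ρ j * ((m':ℝ) + 1/2)
          = cs n L ρ j * ((m:ℝ) - m') := by ring
      rw [this, abs_mul, abs_of_pos hc]
      nlinarith
    have h3 := abs_sub_le (cs n L ρ j * ((m:ℝ) + 1/2)) p (cs n L ρ j * ((m':ℝ) + 1/2))
    have h4 := abs_sub_le p p' (cs n L ρ j * ((m':ℝ) + 1/2))
    rw [abs_sub_comm (cs n L ρ j * ((m:ℝ) + 1/2)) p] at h3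
    linarith
  subst hmm
  rcases abs_choice (p - cs n L ρ j * ((m:ℝ) + 1/2)) with h1 | h1 <;>
  rcases abs_choice (p' - cs n L ρ j * ((m:ℝ) + 1/2)) with h2 | h2 <;>
  rw [h1] at hm <;> rw [h2] at hm'
  · linarith
  · exfalso
    have : p - p' = 2 * gw L ρ j := by linarith
    rw [this, abs_of_pos (by linarith)] at h
    exact lt_irrefl _ h
  · exfalso
    have : p - p' = -(2 * gw L ρ j) := by linarith
    rw [this, abs_neg, abs_of_pos (by linarith)] at h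
    exact lt_irrefl _ h
  · linarith

/-- end points of different levels are far from each other -/
lemma line_far (hL : 4 ≤ L) (h4 : 4 ∣ L) (hn : 1 ≤ n) (hρ : 0 < ρ) {i j : ℤ} (hij : i < j)
    {p p' : ℝ} (hp : Line n L ρ i p) (hp' : Line n L ρ j p') : 2 * gw L ρ i ≤ |p - p'| := by
  obtain ⟨M, hM⟩ := line_deep hL h4 hρ hij hp'
  obtain ⟨m, hm⟩ := hp
  have hg := gw_pos hL hρ i
  have h4' : (4:ℝ) ≤ (L:ℝ)^n := by
    have h1 : (4:ℝ) ≤ L := by exact_mod_cast hL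
    calc (4:ℝ) ≤ L := h1
      _ = (L:ℝ)^1 := (pow_one _).symm
      _ ≤ (L:ℝ)^n := pow_le_pow_right₀ (by linarith) hn
  have hcg : 16 * gw L ρ i ≤ cs n L ρ i := by
    unfold cs; nlinarith
  have h1 := half_le_dist_center (n := n) hL hρ i M m
  have h2 := abs_sub_le (cs n L ρ i * M) p' (cs n L ρ i * ((m:ℝ) + 1/2))
  have h3 := abs_sub_le p' p (cs n L ρ i * ((m:ℝ) + 1/2))
  rw [abs_sub_comm (cs n L ρ i * (M:ℝ)) p'] at h2
  rw [abs_sub_comm p' p] at h3
  linarith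

/-- near a point of a finer line there is no gap of a coarser level (at most `n` levels apart) -/
lemma not_gap_near_line' (hL : 4 ≤ L) (h4 : 4 ∣ L) (hn : 1 ≤ n) (hρ : 0 < ρ) {i j : ℤ}
    (hij : i < j) (hjn : j ≤ i + n) {u p : ℝ} (hp : Line n L ρ i p)
    (hup : |u - p| ≤ gw L ρ i) : ¬ Gap n L ρ j u := by
  rintro ⟨m', hm'⟩
  obtain ⟨M, hM⟩ := center_lattice (n := n) (ρ := ρ) hL h4 hij m'
  rw [hM] at hm'
  have hq := gw_le_quarter (n := n) hL hρ hij.le hjn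
  obtain ⟨m, hm⟩ := hp
  have hg := gw_pos hL hρ i
  have h4' : (4:ℝ) ≤ (L:ℝ)^n := by
    have h1 : (4:ℝ) ≤ L := by exact_mod_cast hL
    calc (4:ℝ) ≤ L := h1
      _ = (L:ℝ)^1 := (pow_one _).symm
      _ ≤ (L:ℝ)^n := pow_le_pow_right₀ (by linarith) hn
  have hcg : 16 * gw L ρ i ≤ cs n L ρ i := by
    unfold cs; nlinarith
  have h1 := half_le_dist_center (n := n) hL hρ i M m
  have h2 := abs_sub_le (cs n L ρ i * M) u (cs n L ρ i * ((m:ℝ) + 1/2))
  have h3 := abs_sub_le u p (cs n L ρ i * ((m:ℝ) + 1/2))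
  rw [abs_sub_comm (cs n L ρ i * (M:ℝ)) u] at h2
  linarith

/-- on one side of an end point the gap zone is constant (locally) -/
lemma gap_side (hL : 4 ≤ L) (hn : 1 ≤ n) (hρ : 0 < ρ) {i : ℤ} {u v p : ℝ}
    (hp : Line n L ρ i p) (hup : |u - p| < gw L ρ i) (hvp : |v - p| < gw L ρ i)
    (hside : p ∉ Set.uIcc u v) (hu : Gap n L ρ i u) : Gap n L ρ i v := by
  by_contra hv
  obtain ⟨p', hp', hmem⟩ := exists_line_between hu hv
  have : |p - p'| < 2 * gw L ρ i := by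
    have h1 := abs_lt.mp hup
    have h2 := abs_lt.mp hvp
    rw [Set.mem_uIcc] at hmem
    rw [abs_lt]
    rcases hmem with h | h <;> constructor <;> linarith [h.1, h.2, h1.1, h1.2, h2.1, h2.2, gw_pos hL hρ i]
  have := line_eq hL hn hρ hp hp' this
  subst this
  exact hside hmem

end Pool.Agent.HypAsdim
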