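import Pool.Agent.Lib_helper71.HypAsdim.Arith

set_option autoImplicit false

/-!
The cover of `ℝ^n × (0,∞)` and the bound `n + 1` for its multiplicity (`n ≥ 2`).
-/

noncomputable section

namespace Pool.Agent.HypAsdim

open Set

/-- the level of a height: `L ^ (t-1) < y ≤ L ^ t` for `t = lev L y` -/
def lev (L : ℕ) (y : ℝ) : ℤ := Int.clog L y

/-- `(j, mm)` is the label of `x` for the island pattern of level `t`: the first level `j ≥ t`
for which no coordinate of `x` lies in the gap zone, together with the cell of `x`. -/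
def Lab (n L : ℕ) (ρ : ℝ) (t : ℤ) (x : Fin n → ℝ) (j : ℤ) (mm : Fin n → ℤ) : Prop :=
  t ≤ j ∧ j ≤ t + n ∧ (∀ c, ¬ Gap n L ρ j (x c)) ∧ (∀ c, mm c = cell n L ρ j (x c)) ∧
    ∀ i, t ≤ i → i < j → ∃ c, Gap n L ρ i (x c)

/-- `p` is the foot of a pillar which starts just below level `q` -/
def Pillar (n L : ℕ) (ρ : ℝ) (q : ℤ) (p : Fin n → ℝ) : Prop :=
  ∃ σ : Fin n → Fin n, Function.Injective σ ∧ ∀ c, Line n L ρ (q + ((σ c : ℕ) : ℤ)) (p c)

/-- the point `(x, y)` belongs to the member `(j, mm)` of the cover -/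
def Mem (n L : ℕ) (ρ W1 W2 : ℝ) (x : Fin n → ℝ) (y : ℝ) (j : ℤ) (mm : Fin n → ℤ) : Prop :=
  (∃ q p, Pillar n L ρ q p ∧ lev L y < q ∧ dist x p < W1 * y ∧ Lab n L ρ q x j mm) ∨
  (∃ q p, Pillar n L ρ q p ∧ lev L y < q ∧ W1 * y ≤ dist x p ∧ dist x p < W2 * y ∧
    j = q - 1 ∧ ∀ c, mm c = cell n L ρ (q - 1) (p c)) ∨
  ((∀ q p, Pillar n L ρ q p → lev L y < q → W2 * y ≤ dist x p) ∧ Lab n L ρ (lev L y) x j mm)

variable {n L : ℕ} {ρ : ℝ}

/-- every point has a label at every level -/
lemma exists_lab (hL : 4 ≤ L) (h4 : 4 ∣ L) (hρ : 0 < ρ) (t : ℤ) (x : Fin n → ℝ) :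
    ∃ j mm, Lab n L ρ t x j mm := by
  have hex : ∃ k : ℕ, k ≤ n ∧ ∀ c, ¬ Gap n L ρ (t + k) (x c) := by
    by_contra hcon
    push Not at hcon
    have h1 : ∀ k : Fin (n+1), ∃ c : Fin n, Gap n L ρ (t + ((k:ℕ):ℤ)) (x c) := fun k =>
      hcon k (by omega)
    choose f hf using h1
    have hinj : Function.Injective f := by
      intro k k' hkk
      by_contra hne
      have hlt : (k:ℕ) ≠ (k':ℕ) := fun h => hne (Fin.ext h)
      rcases lt_or_gt_of_ne hlt with h | h
      · have := gap_disjoint (n := n) hL h4 hρ (i := t + ((k:ℕ):ℤ)) (j := t + ((k':ℕ):ℤ))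
          (by omega) (by omega) (hf k')
        rw [← hkk] at this
        exact this (hf k)
      · have := gap_disjoint (n := n) hL h4 hρ (i := t + ((k':ℕ):ℤ)) (j := t + ((k:ℕ):ℤ))
          (by omega) (by omega) (hf k)
        rw [hkk] at this
        exact this (hf k')
    have := Fintype.card_le_of_injective f hinj
    simp at this
  classical
  obtain ⟨hk1, hk2⟩ := Nat.find_spec hex
  have hmin : ∀ m < Nat.find hex, ¬ (m ≤ n ∧ ∀ c, ¬ Gap n L ρ (t + m) (x c)) :=
    fun m hm => Nat.find_min hex hm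
  set k := Nat.find hex
  refine ⟨t + k, fun c => cell n L ρ (t + k) (x c), by omega, by omega, hk2, fun _ => rfl, ?_⟩
  intro i hi1 hi2
  obtain ⟨m, hm⟩ := Int.le.dest hi1
  have := hmin m (by omega)
  push Not at this
  obtain ⟨c, hc⟩ := this (by omega)
  exact ⟨c, by rwa [← hm]⟩

/-- the members cover everything -/
lemma exists_mem (hL : 4 ≤ L) (h4 : 4 ∣ L) (hρ : 0 < ρ) (W1 W2 : ℝ) (x : Fin n → ℝ) (y : ℝ) :
    ∃ j mm, Mem n L ρ W1 W2 x y j mm := by
  by_cases h : ∀ q p, Pillar n L ρ q p → lev L y < q → W2 * y ≤ dist x p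
  · obtain ⟨j, mm, hl⟩ := exists_lab hL h4 hρ (lev L y) x
    exact ⟨j, mm, Or.inr (Or.inr ⟨h, hl⟩)⟩
  · push Not at h
    obtain ⟨q, p, hp, hq, hd⟩ := h
    rcases lt_or_ge (dist x p) (W1 * y) with h1 | h1
    · obtain ⟨j, mm, hl⟩ := exists_lab hL h4 hρ q x
      exact ⟨j, mm, Or.inl ⟨q, p, hp, hq, h1, hl⟩⟩
    · exact ⟨q - 1, fun c => cell n L ρ (q - 1) (p c), Or.inr (Or.inl
        ⟨q, p, hp, hq, h1, hd, rfl, fun _ => rfl⟩)⟩

/-- counting lemma -/
lemma encard_le_of_missing {J : Set ℤ} {u : ℤ} {n : ℕ} (hJ : J ⊆ Icc u (u + n + 1)) {i : ℤ}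
    (hi : i ∈ Icc u (u + n + 1)) (hiJ : i ∉ J) : J.encard ≤ n + 1 := by
  have h1 : J ⊆ ((Finset.Icc u (u + n + 1)).erase i : Finset ℤ) := by
    intro j hj
    simp only [Finset.coe_erase, Finset.coe_Icc, mem_sdiff, mem_singleton_iff]
    exact ⟨hJ hj, fun h => hiJ (h ▸ hj)⟩
  calc J.encard ≤ (((Finset.Icc u (u + n + 1)).erase i : Finset ℤ) : Set ℤ).encard :=
        encard_le_encard h1
    _ = (((Finset.Icc u (u + n + 1)).erase i).card : ℕ∞) := encard_coe_eq_coe_finsetCard _
    _ ≤ n + 1 := by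
        have : ((Finset.Icc u (u + n + 1)).erase i).card = n + 1 := by
          rw [Finset.card_erase_of_mem (by simpa using hi), Int.card_Icc]
          omega
        rw [this]; norm_cast

section main

variable {W1 W2 b : ℝ}

theorem multiplicity (hn : 2 ≤ n) (hL : 4 ≤ L) (h4 : 4 ∣ L) (hb : 1 ≤ b) (hW1 : 2 * b ^ 2 < W1)
    (hW2 : b ^ 2 * (W1 + 2) ≤ W2) (hρ : (W2 + 2) * b ^ 2 < ρ) (hbL : b ^ 2 ≤ L)
    (x0 : Fin n → ℝ) (y0 : ℝ) (hy0 : 0 < y0) :
    {s : ℤ × (Fin n → ℤ) | ∃ x y, dist x x0 ≤ b * y0 ∧ y0 ≤ b * y ∧ y ≤ b * y0 ∧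
      Mem n L ρ W1 W2 x y s.1 s.2}.encard ≤ n + 1 := by
  classical
  have hL0 : (0:ℝ) < L := by exact_mod_cast (by omega : 0 < L)
  have hL1 : 1 < L := by omega
  have hb0 : 0 < b := by linarith
  have hb2 : 1 ≤ b ^ 2 := one_le_pow₀ hb
  have hW1p : 0 < W1 := by nlinarith
  have hW12 : W1 ≤ W2 := by nlinarith
  have hW2p : 0 < W2 := by linarith
  have hρp : 0 < ρ := by
    have : 0 < (W2 + 2) * b ^ 2 := by positivity
    linarith
  have hby0 : 0 < b * y0 := by positivity
  set t : ℤ := lev L (y0 / b) with ht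
  have hyb : 0 < y0 / b := by positivity
  have ht1 : y0 / b ≤ (L:ℝ) ^ t := Int.self_le_zpow_clog hL1 _
  -- levels in the window
  have hlev1 : ∀ y : ℝ, y0 ≤ b * y → t ≤ lev L y := by
    intro y hy
    apply Int.clog_mono_right hyb
    rw [div_le_iff₀ hb0]; linarith
  have hypos : ∀ y : ℝ, y0 ≤ b * y → 0 < y := by
    intro y hy
    by_contra h
    push Not at h
    nlinarith
  have hbt : b * y0 ≤ b ^ 2 * (L:ℝ) ^ t := by
    have : b * y0 = b ^ 2 * (y0 / b) := by field_simp
    rw [this]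
    exact mul_le_mul_of_nonneg_left ht1 (by positivity)
  have hlev2 : ∀ y : ℝ, y0 ≤ b * y → y ≤ b * y0 → lev L y ≤ t + 1 := by
    intro y hy0' hy
    apply (Int.le_zpow_iff_clog_le hL1 (hypos y hy0')).mp
    have h1 : (L:ℝ) ^ (t + 1) = L * (L:ℝ) ^ t := by
      rw [zpow_add₀ hL0.ne', zpow_one]; ring
    rw [h1]
    have : 0 < (L:ℝ) ^ t := zpow_pos hL0 t
    calc y ≤ b * y0 := hy
      _ ≤ b ^ 2 * (L:ℝ) ^ t := hbt
      _ ≤ L * (L:ℝ) ^ t := by nlinarith
  -- the basic smallness
  set G : ℝ := gw L ρ t with hG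
  have hR : (W2 + 2) * (b * y0) < G := by
    have : 0 < (L:ℝ) ^ t := zpow_pos hL0 t
    calc (W2 + 2) * (b * y0) ≤ (W2 + 2) * (b ^ 2 * (L:ℝ) ^ t) := by
          apply mul_le_mul_of_nonneg_left hbt (by linarith)
      _ = ((W2 + 2) * b ^ 2) * (L:ℝ) ^ t := by ring
      _ < ρ * (L:ℝ) ^ t := by apply mul_lt_mul_of_pos_right hρ this
      _ = G := rfl
  have hGj : ∀ j : ℤ, t ≤ j → G ≤ gw L ρ j := fun j hj => gw_mono hL hρp hj
  set S : Set (ℤ × (Fin n → ℤ)) := {s | ∃ x y, dist x x0 ≤ b * y0 ∧ y0 ≤ b * y ∧ y ≤ b * y0 ∧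
      Mem n L ρ W1 W2 x y s.1 s.2} with hS
  -- every label comes from a nearby point outside the gap zone of its level
  have hN1 : ∀ s ∈ S, ∃ z : Fin n → ℝ, dist z x0 ≤ (W2 + 1) * (b * y0) ∧
      (∀ c, ¬ Gap n L ρ s.1 (z c)) ∧ (∀ c, s.2 c = cell n L ρ s.1 (z c)) ∧ t ≤ s.1 := by
    rintro ⟨j, mm⟩ ⟨x, y, hx, hy1, hy2, hmem⟩
    have hty := hlev1 y hy1
    have hyp := hypos y hy1
    rcases hmem with ⟨q, p, hp, hq, hd, hl⟩ | ⟨q, p, hp, hq, hd1, hd2, hj, hmm⟩ | ⟨_, hl⟩
    · refine ⟨x, ?_, hl.2.2.1, hl.2.2.2.1, ?_⟩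
      · nlinarith
      · have := hl.1; simp only; omega
    · refine ⟨p, ?_, ?_, ?_, ?_⟩
      · calc dist p x0 ≤ dist p x + dist x x0 := dist_triangle _ _ _
          _ ≤ W2 * y + b * y0 := by rw [dist_comm p x]; linarith
          _ ≤ W2 * (b * y0) + b * y0 := by nlinarith
          _ = (W2 + 1) * (b * y0) := by ring
      · intro c
        obtain ⟨σ, hσ, hline⟩ := hp
        simp only at hj
        subst hj
        apply not_gap_near_line hL h4 (by omega) hρp (j := q + ((σ c : ℕ) : ℤ)) (by omega)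
          (hline c)
        simp [(gw_pos hL hρp _).le]
      · intro c
        simp only at hj
        subst hj
        exact hmm c
      · simp only; omega
    · refine ⟨x, ?_, hl.2.2.1, hl.2.2.2.1, ?_⟩
      · nlinarith
      · have := hl.1; simp only; omega
  -- at most one label per level
  have hinj : InjOn Prod.fst S := by
    intro s hs s' hs' hss
    obtain ⟨z, hz1, hz2, hz3, hz4⟩ := hN1 s hs
    obtain ⟨z', hz1', hz2', hz3', hz4'⟩ := hN1 s' hs'
    rw [← hss] at hz2' hz3' hz4'
    apply Prod.ext hss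
    funext c
    rw [hz3 c, hz3' c]
    apply cell_eq hL hρp (hz2 c) (hz2' c)
    have h1 : |z c - z' c| ≤ dist z z' := by
      rw [← Real.dist_eq]; exact dist_le_pi_dist z z' c
    have h2 : dist z z' ≤ 2 * ((W2 + 1) * (b * y0)) := by
      calc dist z z' ≤ dist z x0 + dist x0 z' := dist_triangle _ _ _
        _ ≤ _ := by rw [dist_comm x0 z']; linarith
    have h3 := hGj s.1 hz4
    nlinarith
  rw [← hinj.encard_image]
  set J : Set ℤ := Prod.fst '' S with hJ
  by_cases hA : ∀ q p x y, Pillar n L ρ q p → dist x x0 ≤ b * y0 → y0 ≤ b * y → y ≤ b * y0 →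
      lev L y < q → W2 * y ≤ dist x p
  · -- Case A : no pillar meets the window
    have hmain : ∀ j ∈ J, ∃ x y mm, dist x x0 ≤ b * y0 ∧ y0 ≤ b * y ∧ y ≤ b * y0 ∧
        Lab n L ρ (lev L y) x j mm := by
      rintro j ⟨⟨j', mm⟩, ⟨x, y, hx, hy1, hy2, hmem⟩, rfl⟩
      have hyp := hypos y hy1
      rcases hmem with ⟨q, p, hp, hq, hd, hl⟩ | ⟨q, p, hp, hq, hd1, hd2, hj, hmm⟩ | ⟨_, hl⟩
      · exfalso
        have := hA q p x y hp hx hy1 hy2 hq
        nlinarith
      · exfalso
        have := hA q p x y hp hx hy1 hy2 hq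
        linarith
      · exact ⟨x, y, mm, hx, hy1, hy2, hl⟩
    have hJsub : J ⊆ Icc t (t + n + 1) := by
      intro j hj
      obtain ⟨x, y, mm, hx, hy1, hy2, hl⟩ := hmain j hj
      have h1 := hlev1 y hy1
      have h2 := hlev2 y hy1 hy2
      have h3 := hl.1
      have h4 := hl.2.1
      constructor <;> omega
    by_contra hcard
    have hall : ∀ i ∈ Icc t (t + n + 1), i ∈ J := by
      intro i hi
      by_contra hiJ
      exact hcard (encard_le_of_missing hJsub hi hiJ)
    obtain ⟨x, y, mm, hx, hy1, hy2, hl⟩ := hmain (t + n + 1) (hall _ ⟨by omega, le_refl _⟩)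
    have hly : lev L y = t + 1 := by
      have h2 := hlev2 y hy1 hy2
      have h4 := hl.2.1
      omega
    rw [hly] at hl
    have hgap : ∀ k : Fin n, ∃ c : Fin n, Gap n L ρ (t + 1 + ((k:ℕ):ℤ)) (x c) := fun k =>
      hl.2.2.2.2 _ (by omega) (by omega)
    choose f hf using hgap
    have hfinj : Function.Injective f := by
      intro k k' hkk
      by_contra hne
      have hlt : (k:ℕ) ≠ (k':ℕ) := fun h => hne (Fin.ext h)
      rcases lt_or_gt_of_ne hlt with h | h
      · have := gap_disjoint (n := n) hL h4 hρp (i := t + 1 + ((k:ℕ):ℤ))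
          (j := t + 1 + ((k':ℕ):ℤ)) (by omega) (by omega) (hf k')
        rw [← hkk] at this
        exact this (hf k)
      · have := gap_disjoint (n := n) hL h4 hρp (i := t + 1 + ((k':ℕ):ℤ))
          (j := t + 1 + ((k:ℕ):ℤ)) (by omega) (by omega) (hf k)
        rw [hkk] at this
        exact this (hf k')
    have hfsurj : Function.Surjective f := Finite.surjective_of_injective hfinj
    choose σ hσ using hfsurj
    have hσinj : Function.Injective σ := by
      intro e e' h
      rw [← hσ e, ← hσ e', h]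
    have hpt : ∀ e : Fin n, ∃ u : ℝ, Line n L ρ (t + 1 + ((σ e : ℕ):ℤ)) u ∧
        |u - x0 e| ≤ b * y0 := by
      intro e
      obtain ⟨x', y', mm', hx', hy1', hy2', hl'⟩ := hmain (t + 1 + ((σ e : ℕ):ℤ))
        (hall _ ⟨by omega, by omega⟩)
      have hg : Gap n L ρ (t + 1 + ((σ e : ℕ):ℤ)) (x e) := by
        have := hf (σ e)
        rwa [hσ e] at this
      have hng := hl'.2.2.1 e
      obtain ⟨u, hu, hmem⟩ := exists_line_between hg hng
      refine ⟨u, hu, ?_⟩
      have h1 : |x e - x0 e| ≤ b * y0 := by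
        rw [← Real.dist_eq]; exact (dist_le_pi_dist x x0 e).trans hx
      have h2 : |x' e - x0 e| ≤ b * y0 := by
        rw [← Real.dist_eq]; exact (dist_le_pi_dist x' x0 e).trans hx'
      rw [abs_le] at h1 h2 ⊢
      rw [mem_uIcc] at hmem
      rcases hmem with h | h <;> constructor <;> linarith [h.1, h.2, h1.1, h1.2, h2.1, h2.2]
    choose p hp1 hp2 using hpt
    have hpil : Pillar n L ρ (t + 1) p := ⟨σ, hσinj, hp1⟩
    have hdp : dist p x0 ≤ b * y0 := by
      rw [dist_pi_le_iff hby0.le]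
      intro e; rw [Real.dist_eq]; exact hp2 e
    have := hA (t + 1) p p (y0 / b) hpil hdp (by field_simp; exact le_refl _) (by
      rw [div_le_iff₀ hb0]; nlinarith) (by omega)
    rw [dist_self] at this
    nlinarith
  · -- Case B : some pillar meets the window
    push Not at hA
    obtain ⟨q, p, x1, y1, hp, hx1, hy11, hy12, hq1, hd1⟩ := hA
    have htq : t + 1 ≤ q := by have := hlev1 y1 hy11; omega
    have hx1p : dist x1 p < W2 * (b * y0) := by
      have := hypos y1 hy11
      nlinarith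
    have hnear : ∀ x, dist x x0 ≤ b * y0 → dist x p < (W2 + 2) * (b * y0) := by
      intro x hx
      calc dist x p ≤ dist x x1 + dist x1 p := dist_triangle _ _ _
        _ ≤ (dist x x0 + dist x0 x1) + dist x1 p := by
            gcongr; exact dist_triangle _ _ _
        _ < (W2 + 2) * (b * y0) := by
            rw [dist_comm x0 x1]; linarith
    have hnearG : ∀ x, dist x x0 ≤ b * y0 → ∀ c, ∀ i, t ≤ i → |x c - p c| < gw L ρ i := by
      intro x hx c i hi
      have h1 : |x c - p c| ≤ dist x p := by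
        rw [← Real.dist_eq]; exact dist_le_pi_dist x p c
      have h2 := hnear x hx
      have h3 := hGj i hi
      linarith
    obtain ⟨σ, hσ, hline⟩ := hp
    have hσs : Function.Surjective σ := Finite.surjective_of_injective hσ
    -- uniqueness of the pillar
    have huniq : ∀ q' p' x' y', Pillar n L ρ q' p' → dist x' x0 ≤ b * y0 → y0 ≤ b * y' →
        y' ≤ b * y0 → lev L y' < q' → dist x' p' < W2 * y' → q' = q ∧ p' = p := by
      intro q' p' x' y' hp' hx' hy1' hy2' hq' hd'
      obtain ⟨σ', hσ', hline'⟩ := hp'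
      have hσs' : Function.Surjective σ' := Finite.surjective_of_injective hσ'
      have htq' : t + 1 ≤ q' := by have := hlev1 y' hy1'; omega
      have hpp : dist p p' < 2 * G := by
        have h1 := hnear x' hx'
        have h2 : dist x' p' < W2 * (b * y0) := by
          have := hypos y' hy1'
          nlinarith
        calc dist p p' ≤ dist p x' + dist x' p' := dist_triangle _ _ _
          _ < 2 * G := by rw [dist_comm p x']; nlinarith
      have hc : ∀ c, q + ((σ c : ℕ):ℤ) = q' + ((σ' c : ℕ):ℤ) ∧ p' c = p c := by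
        intro c
        have h1 : |p c - p' c| < 2 * G := by
          rw [← Real.dist_eq]; exact (dist_le_pi_dist p p' c).trans_lt hpp
        rcases lt_trichotomy (q + ((σ c : ℕ):ℤ)) (q' + ((σ' c : ℕ):ℤ)) with h | h | h
        · exfalso
          have := line_far hL h4 (by omega) hρp h (hline c) (hline' c)
          have h2 := hGj (q + ((σ c : ℕ):ℤ)) (by omega)
          linarith
        · refine ⟨h, ?_⟩
          have h3 := hline' c
          rw [← h] at h3
          have h2 := hGj (q + ((σ c : ℕ):ℤ)) (by omega)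
          exact (line_eq hL (by omega) hρp (hline c) h3 (by linarith)).symm
        · exfalso
          have := line_far hL h4 (by omega) hρp h (hline' c) (hline c)
          have h2 := hGj (q' + ((σ' c : ℕ):ℤ)) (by omega)
          rw [abs_sub_comm] at this
          linarith
      refine ⟨?_, funext fun c => (hc c).2⟩
      obtain ⟨c0, hc0⟩ := hσs ⟨0, by omega⟩
      obtain ⟨c1, hc1⟩ := hσs' ⟨0, by omega⟩
      have e0 := (hc c0).1
      have e1 := (hc c1).1
      rw [hc0] at e0
      rw [hc1] at e1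
      simp only at e0 e1
      omega
    -- what labels can occur
    have hchar : ∀ x y j mm, dist x x0 ≤ b * y0 → y0 ≤ b * y → y ≤ b * y0 →
        Mem n L ρ W1 W2 x y j mm →
        (((lev L y < q ∧ dist x p < W1 * y) ∨ q ≤ lev L y) ∧ Lab n L ρ q x j mm) ∨
        (lev L y < q ∧ W1 * y ≤ dist x p ∧ j = q - 1) ∨
        (lev L y < q ∧ W2 * y ≤ dist x p ∧ j = lev L y) := by
      intro x y j mm hx hy1 hy2 hmem
      have hyp := hypos y hy1
      rcases hmem with ⟨q', p', hp', hq', hd', hl'⟩ | ⟨q', p', hp', hq', hd1', hd2', hj', hmm'⟩ |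
        ⟨hno, hl'⟩
      · obtain ⟨rfl, rfl⟩ := huniq q' p' x y hp' hx hy1 hy2 hq' (by nlinarith)
        exact Or.inl ⟨Or.inl ⟨hq', hd'⟩, hl'⟩
      · obtain ⟨rfl, rfl⟩ := huniq q' p' x y hp' hx hy1 hy2 hq' hd2'
        exact Or.inr (Or.inl ⟨hq', hd1', hj'⟩)
      · rcases lt_or_ge (lev L y) q with h | h
        · refine Or.inr (Or.inr ⟨h, hno q p ⟨σ, hσ, hline⟩ h, ?_⟩)
          -- the point is deep inside an island of its level
          have ht' := hlev1 y hy1
          by_contra hne
          have h1 := hl'.1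
          obtain ⟨c, hc⟩ := hl'.2.2.2.2 (lev L y) (le_refl _) (by omega)
          exact not_gap_near_line hL h4 (by omega) hρp (j := q + ((σ c : ℕ) : ℤ)) (by omega)
            (hline c) (hnearG x hx c _ ht').le hc
        · have h2 := hlev2 y hy1 hy2
          have h3 : lev L y = q := by omega
          rw [h3] at hl'
          exact Or.inl ⟨Or.inr h, hl'⟩
    by_cases hI : (∃ x y, dist x x0 ≤ b * y0 ∧ y0 ≤ b * y ∧ y ≤ b * y0 ∧ lev L y < q ∧
        dist x p < W1 * y) ∨ (∃ y, y0 ≤ b * y ∧ y ≤ b * y0 ∧ q ≤ lev L y)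
    · -- B-II
      have hlow : ∀ x y, dist x x0 ≤ b * y0 → y0 ≤ b * y → y ≤ b * y0 → lev L y < q →
          W2 * y ≤ dist x p → lev L y = q - 1 := by
        intro x y hx hy1 hy2 hlq hd
        rcases hI with ⟨x', y', hx', hy1', hy2', hlq', hd'⟩ | ⟨y', hy1', hy2', hlq'⟩
        · exfalso
          have h1 : dist x p ≤ dist x x0 + dist x0 x' + dist x' p :=
            (dist_triangle x x' p).trans (by gcongr; exact dist_triangle _ _ _)
          rw [dist_comm x0 x'] at h1
          have h2 : dist x' p < W1 * (b * y0) := by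
            have := hypos y' hy1'
            nlinarith
          have h3 : dist x p < (W1 + 2) * (b * y0) := by linarith
          have h4 : (W1 + 2) * (b * y0) ≤ (W1 + 2) * (b * (b * y)) := by
            apply mul_le_mul_of_nonneg_left _ (by linarith)
            apply mul_le_mul_of_nonneg_left hy1 hb0.le
          have hyp := hypos y hy1
          have h5 : (W1 + 2) * (b * (b * y)) = (b ^ 2 * (W1 + 2)) * y := by ring
          have h6 : (b ^ 2 * (W1 + 2)) * y ≤ W2 * y := mul_le_mul_of_nonneg_right hW2 hyp.le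
          linarith
        · have h1 := hlev2 y' hy1' hy2'
          have h2 := hlev1 y hy1
          omega
      have hchar2 : ∀ j ∈ J, (∃ x mm, dist x x0 ≤ b * y0 ∧ Lab n L ρ q x j mm) ∨
          (j = q - 1 ∧ ∃ x y, dist x x0 ≤ b * y0 ∧ y0 ≤ b * y ∧ W1 * y ≤ dist x p) := by
        rintro j ⟨⟨j', mm⟩, ⟨x, y, hx, hy1, hy2, hmem⟩, rfl⟩
        have hyp := hypos y hy1
        rcases hchar x y j' mm hx hy1 hy2 hmem with ⟨_, hl⟩ | ⟨h1, h2, h3⟩ | ⟨h1, h2, h3⟩
        · exact Or.inl ⟨x, mm, hx, hl⟩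
        · exact Or.inr ⟨h3, x, y, hx, hy1, h2⟩
        · refine Or.inr ⟨?_, x, y, hx, hy1, by nlinarith⟩
          have := hlow x y hx hy1 hy2 h1 h2
          simp only; omega
      have hJsub : J ⊆ Icc (q - 1) (q - 1 + n + 1) := by
        intro j hj
        rcases hchar2 j hj with ⟨x, mm, hx, hl⟩ | ⟨h, _⟩
        · have h3 := hl.1
          have h4 := hl.2.1
          constructor <;> omega
        · constructor <;> omega
      by_cases hall : ∀ c, |x0 c - p c| ≤ b * y0
      · apply encard_le_of_missing hJsub (i := q - 1) ⟨le_refl _, by omega⟩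
        intro hmem
        rcases hchar2 _ hmem with ⟨x, mm, hx, hl⟩ | ⟨_, x, y, hx, hy1, hd⟩
        · have := hl.1; omega
        · have h1 : dist x0 p ≤ b * y0 := by
            rw [dist_pi_le_iff hby0.le]
            intro c; rw [Real.dist_eq]; exact hall c
          have h2 : dist x p ≤ 2 * (b * y0) := (dist_triangle x x0 p).trans (by linarith)
          have hyp := hypos y hy1
          have h3 : b * y0 ≤ b * (b * y) := mul_le_mul_of_nonneg_left hy1 hb0.le
          nlinarith
      · push Not at hall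
        obtain ⟨c, hc⟩ := hall
        set i : ℤ := q + ((σ c : ℕ):ℤ) with hi
        have hin : i ≤ q + n - 1 := by have := (σ c).2; omega
        have hside : ∀ x x', dist x x0 ≤ b * y0 → dist x' x0 ≤ b * y0 →
            p c ∉ uIcc (x c) (x' c) := by
          intro x x' hx hx' hmem
          have h1 : |x c - x0 c| ≤ b * y0 := by
            rw [← Real.dist_eq]; exact (dist_le_pi_dist x x0 c).trans hx
          have h2 : |x' c - x0 c| ≤ b * y0 := by
            rw [← Real.dist_eq]; exact (dist_le_pi_dist x' x0 c).trans hx'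
          have h3 : |x0 c - p c| ≤ b * y0 := by
            rw [abs_le] at h1 h2 ⊢
            rw [mem_uIcc] at hmem
            rcases hmem with h | h <;> constructor <;>
              linarith [h.1, h.2, h1.1, h1.2, h2.1, h2.2]
          linarith
        by_cases hgap : ∃ x, dist x x0 ≤ b * y0 ∧ Gap n L ρ i (x c)
        · obtain ⟨x, hx, hg⟩ := hgap
          apply encard_le_of_missing hJsub (i := i) ⟨by omega, by omega⟩
          intro hmem
          rcases hchar2 _ hmem with ⟨x', mm, hx', hl⟩ | ⟨h, _⟩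
          · refine hl.2.2.1 c ?_
            exact gap_side hL (by omega) hρp (hline c) (hnearG x hx c i (by omega))
              (hnearG x' hx' c i (by omega)) (hside x x' hx hx') hg
          · omega
        · push Not at hgap
          apply encard_le_of_missing hJsub (i := q - 1 + n + 1) ⟨by omega, le_refl _⟩
          intro hmem
          rcases hchar2 _ hmem with ⟨x', mm, hx', hl⟩ | ⟨h, _⟩
          · obtain ⟨c', hc'⟩ := hl.2.2.2.2 i (by omega) (by omega)
            by_cases hcc : c' = c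
            · subst hcc; exact hgap x' hx' hc'
            · have hne : (σ c' : ℕ) ≠ (σ c : ℕ) := fun h => hcc (hσ (Fin.ext h))
              rcases lt_or_gt_of_ne hne with h | h
              · have h5 := (σ c).2
                exact not_gap_near_line' hL h4 (by omega) hρp (i := q + ((σ c' : ℕ):ℤ))
                  (j := i) (by omega) (by omega) (hline c')
                  (hnearG x' hx' c' _ (by omega)).le hc'
              · exact not_gap_near_line hL h4 (by omega) hρp (i := i)
                  (j := q + ((σ c' : ℕ):ℤ)) (by omega) (hline c')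
                  (hnearG x' hx' c' _ (by omega)).le hc'
          · omega
    · -- B-I
      push Not at hI
      obtain ⟨hI1, hI2⟩ := hI
      have hsub : J ⊆ ({q - 1, t, t + 1} : Finset ℤ) := by
        rintro j ⟨⟨j', mm⟩, ⟨x, y, hx, hy1, hy2, hmem⟩, rfl⟩
        have ha := hlev1 y hy1
        have hb' := hlev2 y hy1 hy2
        simp only [Finset.coe_insert, Finset.coe_singleton, mem_insert_iff, mem_singleton_iff]
        rcases hchar x y j' mm hx hy1 hy2 hmem with ⟨h | h, hl⟩ | ⟨h1, h2, h3⟩ | ⟨h1, h2, h3⟩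
        · exfalso
          have := hI1 x y hx hy1 hy2 h.1
          linarith [h.2]
        · exfalso
          have := hI2 y hy1 hy2
          omega
        · left; exact h3
        · right; omega
      calc J.encard ≤ ((({q - 1, t, t + 1} : Finset ℤ)) : Set ℤ).encard := encard_le_encard hsub
        _ = (({q - 1, t, t + 1} : Finset ℤ).card : ℕ∞) := encard_coe_eq_coe_finsetCard _
        _ ≤ 3 := by exact_mod_cast Finset.card_le_three
        _ ≤ n + 1 := by exact_mod_cast (by omega : 3 ≤ n + 1)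

end main

end Pool.Agent.HypAsdim
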