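import Mathlib

set_option autoImplicit false

/-!
Definitions for asymptotic dimension with controlled growth, and the upper half-space model of
real hyperbolic space.
-/

noncomputable section

namespace Pool.Agent.HypAsdim

open Set Metric Filter Topology
open scoped ENNReal NNReal

/-! ### Asymptotic dimension with controlled growth -/

/-- The growth function of a subset `U` of a metric space `Z`:
`γ_U(t) = sup_{x ∈ U} |U ∩ B(x,t)|`, with values in `[0,∞]` (closed balls). -/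
def growth {Z : Type} [MetricSpace Z] (U : Set Z) (t : ℝ≥0) : ℝ≥0∞ :=
  ⨆ x ∈ U, ((U ∩ closedBall x (t : ℝ)).encard : ℝ≥0∞)

/-- `asdim_F(Z) ≤ n`: for every `r > 0` there is a cover `(X i)` of `Z` such that every ball of
radius `r` meets at most `n + 1` of the `X i`, and the growth functions of all `X i` are bounded
by one function `f ∈ F`. -/
def AsdimLE (F : Set (ℝ≥0 → ℝ≥0)) (Z : Type) [MetricSpace Z] (n : ℕ) : Prop :=
  ∀ r : ℝ, 0 < r → ∃ (ι : Type) (X : ι → Set Z),
    (⋃ i, X i) = univ ∧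
    (∀ z : Z, {i | (X i ∩ closedBall z r).Nonempty}.encard ≤ (n : ℕ∞) + 1) ∧
    ∃ f ∈ F, ∀ i t, growth (X i) t ≤ (f t : ℝ≥0∞)

/-- `asdim_F(Z)`: the least `n` with `asdim_F(Z) ≤ n` (and `⊤` if there is no such `n`). -/
def asdim (F : Set (ℝ≥0 → ℝ≥0)) (Z : Type) [MetricSpace Z] : ℕ∞ :=
  ⨅ (n : ℕ) (_ : AsdimLE F Z n), (n : ℕ∞)

/-- `o(poly(d))`: the non-decreasing functions `f : [0,∞) → [0,∞)` with `f(t) / t ^ d → 0`. -/
def littleOPoly (d : ℕ) : Set (ℝ≥0 → ℝ≥0) :=
  {f | Monotone f ∧ Tendsto (fun t => f t / t ^ d) atTop (𝓝 0)}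

/-- the functions `t ↦ C * (t + 1)` -/
def linearFns : Set (ℝ≥0 → ℝ≥0) := {f | ∃ C : ℝ≥0, ∀ t, f t = C * (t + 1)}

/-- A net of a metric space: a uniformly discrete subset which is coarsely dense.  (Any net of
hyperbolic space is quasi-isometric to hyperbolic space.) -/
def IsNet {X : Type} [MetricSpace X] (Z : Set X) : Prop :=
  (∃ ε : ℝ, 0 < ε ∧ ∀ x ∈ Z, ∀ y ∈ Z, x ≠ y → ε ≤ dist x y) ∧
    ∃ R : ℝ, ∀ x : X, ∃ z ∈ Z, dist x z ≤ R

/-! ### Hyperbolic space -/

/-- The upper half-space model of real hyperbolic `d`-space `ℍ^d`, `d ≥ 1`: the points are the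
pairs `(hor, ht)` with `hor ∈ ℝ^(d-1)` and `ht > 0`. -/
@[ext] structure Hyp (d : ℕ) where
  /-- the horizontal coordinates -/
  hor : EuclideanSpace ℝ (Fin (d - 1))
  /-- the height -/
  ht : ℝ
  ht_pos : 0 < ht

namespace Hyp

variable {d : ℕ}

/-- The hyperbolic distance of the upper half-space model,
`cosh dist((x,y),(x',y')) = 1 + (|x-x'|² + (y-y')²) / (2 y y')`. -/
instance : Dist (Hyp d) :=
  ⟨fun p q => Real.arcosh
    (1 + (‖p.hor - q.hor‖ ^ 2 + (p.ht - q.ht) ^ 2) / (2 * p.ht * q.ht))⟩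

lemma dist_def (p q : Hyp d) : dist p q = Real.arcosh
    (1 + (‖p.hor - q.hor‖ ^ 2 + (p.ht - q.ht) ^ 2) / (2 * p.ht * q.ht)) := rfl

lemma one_le_arg (p q : Hyp d) :
    1 ≤ 1 + (‖p.hor - q.hor‖ ^ 2 + (p.ht - q.ht) ^ 2) / (2 * p.ht * q.ht) := by
  have h1 := p.ht_pos
  have h2 := q.ht_pos
  have : 0 ≤ (‖p.hor - q.hor‖ ^ 2 + (p.ht - q.ht) ^ 2) / (2 * p.ht * q.ht) := by positivity
  linarith

lemma cosh_dist (p q : Hyp d) : Real.cosh (dist p q) =
    1 + (‖p.hor - q.hor‖ ^ 2 + (p.ht - q.ht) ^ 2) / (2 * p.ht * q.ht) :=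
  Real.cosh_arcosh (one_le_arg p q)

lemma dist_nonneg' (p q : Hyp d) : 0 ≤ dist p q := Real.arcosh_nonneg (one_le_arg p q)

/-- the Euclidean space in which the half-space lies -/
abbrev Amb (d : ℕ) : Type := WithLp 2 (EuclideanSpace ℝ (Fin (d - 1)) × ℝ)

/-- the point as a point of Euclidean space -/
def emb (p : Hyp d) : Amb d := WithLp.toLp 2 (p.hor, p.ht)

/-- its mirror image -/
def ref (p : Hyp d) : Amb d := WithLp.toLp 2 (p.hor, -p.ht)

lemma dist_emb_sq (p q : Hyp d) :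
    dist (emb p) (emb q) ^ 2 = ‖p.hor - q.hor‖ ^ 2 + (p.ht - q.ht) ^ 2 := by
  rw [WithLp.prod_dist_eq_of_L2, Real.sq_sqrt (by positivity)]
  simp [emb, dist_eq_norm, sq_abs]

lemma dist_emb_ref_sq (p q : Hyp d) :
    dist (emb p) (ref q) ^ 2 = ‖p.hor - q.hor‖ ^ 2 + (p.ht + q.ht) ^ 2 := by
  rw [WithLp.prod_dist_eq_of_L2, Real.sq_sqrt (by positivity)]
  simp [emb, ref, dist_eq_norm, sq_abs]

lemma dist_emb_ref_comm (p q : Hyp d) : dist (emb p) (ref q) = dist (emb q) (ref p) := by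
  rw [← sq_eq_sq₀ dist_nonneg dist_nonneg, dist_emb_ref_sq, dist_emb_ref_sq, norm_sub_rev]
  ring

lemma dist_emb_ref_self (p : Hyp d) : dist (emb p) (ref p) = 2 * p.ht := by
  have := p.ht_pos
  rw [← sq_eq_sq₀ dist_nonneg (by positivity), dist_emb_ref_sq, sub_self, norm_zero]
  ring

lemma sinh_half_dist (p q : Hyp d) :
    Real.sinh (dist p q / 2) = dist (emb p) (emb q) / (2 * √(p.ht * q.ht)) := by
  have h1 := p.ht_pos
  have h2 := q.ht_pos
  have h3 : 0 ≤ Real.sinh (dist p q / 2) :=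
    Real.sinh_nonneg_iff.mpr (by have := dist_nonneg' p q; linarith)
  rw [← sq_eq_sq₀ h3 (by positivity), div_pow, mul_pow, Real.sq_sqrt (by positivity),
    dist_emb_sq]
  have h4 := cosh_dist p q
  have h5 : Real.cosh (dist p q) = 1 + 2 * Real.sinh (dist p q / 2) ^ 2 := by
    have := Real.cosh_two_mul (dist p q / 2)
    rw [mul_div_cancel₀ _ (two_ne_zero), Real.cosh_sq] at this
    linarith
  rw [h5] at h4
  field_simp at h4 ⊢
  linarith

lemma cosh_half_dist (p q : Hyp d) :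
    Real.cosh (dist p q / 2) = dist (emb p) (ref q) / (2 * √(p.ht * q.ht)) := by
  have h1 := p.ht_pos
  have h2 := q.ht_pos
  rw [← sq_eq_sq₀ (Real.cosh_pos _).le (by positivity), div_pow, mul_pow,
    Real.sq_sqrt (by positivity), dist_emb_ref_sq, Real.cosh_sq, sinh_half_dist, div_pow,
    mul_pow, Real.sq_sqrt (by positivity), dist_emb_sq]
  field_simp
  ring

lemma dist_triangle' (a b c : Hyp d) : dist a c ≤ dist a b + dist b c := by
  have ha := a.ht_pos
  have hb := b.ht_pos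
  have hc := c.ht_pos
  have key : Real.sinh (dist a c / 2) ≤ Real.sinh ((dist a b + dist b c) / 2) := by
    rw [add_div, Real.sinh_add, sinh_half_dist, sinh_half_dist, sinh_half_dist, cosh_half_dist,
      cosh_half_dist]
    have hpt := EuclideanGeometry.mul_dist_le_mul_dist_add_mul_dist (emb a) (emb b) (emb c)
      (ref b)
    rw [dist_emb_ref_self, dist_emb_ref_comm c b] at hpt
    have hs : √(a.ht * b.ht) * √(b.ht * c.ht) = b.ht * √(a.ht * c.ht) := by
      rw [← Real.sqrt_mul (by positivity), show a.ht * b.ht * (b.ht * c.ht) =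
        b.ht ^ 2 * (a.ht * c.ht) by ring, Real.sqrt_mul (by positivity), Real.sqrt_sq hb.le]
    have hsp : 0 < √(a.ht * c.ht) := Real.sqrt_pos.mpr (by positivity)
    have e1 : dist (emb a) (emb b) / (2 * √(a.ht * b.ht)) *
        (dist (emb b) (ref c) / (2 * √(b.ht * c.ht))) +
        dist (emb a) (ref b) / (2 * √(a.ht * b.ht)) *
        (dist (emb b) (emb c) / (2 * √(b.ht * c.ht))) =
        (dist (emb a) (emb b) * dist (emb b) (ref c) +
          dist (emb b) (emb c) * dist (emb a) (ref b)) / (4 * (b.ht * √(a.ht * c.ht))) := by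
      rw [← hs]
      have h1 : 0 < √(a.ht * b.ht) := Real.sqrt_pos.mpr (by positivity)
      have h2 : 0 < √(b.ht * c.ht) := Real.sqrt_pos.mpr (by positivity)
      field_simp
      ring
    rw [e1, div_le_div_iff₀ (by positivity) (by positivity)]
    nlinarith
  have := Real.sinh_le_sinh.mp key
  linarith

instance : MetricSpace (Hyp d) where
  dist_self p := by
    rw [dist_def]
    simp
  dist_comm p q := by
    rw [dist_def, dist_def, norm_sub_rev]
    congr 2
    ring
  dist_triangle := dist_triangle'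
  eq_of_dist_eq_zero {p q} h := by
    have h1 := p.ht_pos
    have h2 := q.ht_pos
    have h3 := cosh_dist p q
    rw [h, Real.cosh_zero] at h3
    have h4 : (‖p.hor - q.hor‖ ^ 2 + (p.ht - q.ht) ^ 2) / (2 * p.ht * q.ht) = 0 := by linarith
    have h5 : ‖p.hor - q.hor‖ ^ 2 + (p.ht - q.ht) ^ 2 = 0 := by
      rcases div_eq_zero_iff.mp h4 with h | h
      · exact h
      · exfalso; have : 0 < 2 * p.ht * q.ht := by positivity
        linarith
    have h6 : ‖p.hor - q.hor‖ = 0 := by nlinarith [sq_nonneg (p.ht - q.ht)]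
    have h7 : p.ht - q.ht = 0 := by nlinarith [sq_nonneg ‖p.hor - q.hor‖]
    ext1
    · exact sub_eq_zero.mp (norm_eq_zero.mp h6)
    · linarith

end Hyp

end Pool.Agent.HypAsdim
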