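import Pool.Agent.Lib_helper71.HypAsdim.Core

set_option autoImplicit false

/-!
Every member of the cover has uniformly bounded horizontal sections.
-/

noncomputable section

namespace Pool.Agent.HypAsdim

open Set

variable {n L : ℕ} {ρ : ℝ}

lemma cs_eq (hL : 4 ≤ L) (j : ℤ) : cs n L ρ j = 4 * (L:ℝ) ^ (2 * n) * gw L ρ (j - n) := by
  unfold cs
  have : gw L ρ j = (L:ℝ)^n * gw L ρ (j - n) := by
    have := gw_add (ρ := ρ) hL (j - n) n
    rwa [sub_add_cancel] at this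
  rw [this]
  ring

/-- the points of all lines of level at least `i` are integer multiples of `gw i` -/
lemma line_lattice (hL : 4 ≤ L) {i j : ℤ} (hij : i ≤ j) {u : ℝ} (hu : Line n L ρ j u) :
    ∃ P : ℤ, u = gw L ρ i * P := by
  obtain ⟨m, hm⟩ := hu
  obtain ⟨k, rfl⟩ := Int.le.dest hij
  have hg := gw_add (ρ := ρ) hL i k
  have hc : cs n L ρ (i + k) = 4 * (L:ℝ)^n * gw L ρ (i + k) := rfl
  rcases abs_choice (u - cs n L ρ (i + k) * ((m:ℝ) + 1/2)) with h | h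
  · refine ⟨(L:ℤ)^k * (4 * (L:ℤ)^n * m + 2 * (L:ℤ)^n + 1), ?_⟩
    rw [h] at hm
    have : u = cs n L ρ (i + k) * ((m:ℝ) + 1/2) + gw L ρ (i + k) := by linarith
    rw [this, hc, hg]
    push_cast
    ring
  · refine ⟨(L:ℤ)^k * (4 * (L:ℤ)^n * m + 2 * (L:ℤ)^n - 1), ?_⟩
    rw [h] at hm
    have : u = cs n L ρ (i + k) * ((m:ℝ) + 1/2) - gw L ρ (i + k) := by linarith
    rw [this, hc, hg]
    push_cast
    ring

lemma cell_near (hL : 4 ≤ L) (hρ : 0 < ρ) (j : ℤ) (u : ℝ) :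
    |u - cs n L ρ j * cell n L ρ j u| ≤ cs n L ρ j / 2 := by
  have hc := cs_pos (n := n) hL hρ j
  have h1 : ((cell n L ρ j u : ℤ):ℝ) ≤ u / cs n L ρ j + 1/2 := Int.floor_le _
  have h2 : u / cs n L ρ j + 1 / 2 < ((cell n L ρ j u : ℤ):ℝ) + 1 := Int.lt_floor_add_one _
  have h3 : u = cs n L ρ j * (u / cs n L ρ j) := by field_simp
  have h4 : u - cs n L ρ j * cell n L ρ j u = cs n L ρ j * (u / cs n L ρ j - cell n L ρ j u) := by
    rw [mul_sub, ← h3]
  rw [h4, abs_mul, abs_of_pos hc]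
  have h5 : |u / cs n L ρ j - cell n L ρ j u| ≤ 1/2 := by
    rw [abs_le]; constructor <;> linarith
  nlinarith

/-- Horizontal sections of a member of the cover lie near boundedly many points. -/
theorem slice {W1 W2 : ℝ} (hn : 1 ≤ n) (hL : 4 ≤ L) (hW1 : 0 < W1) (hW12 : W1 ≤ W2) (hρ : W2 < ρ)
    {x : Fin n → ℝ} {y : ℝ} (hy : 0 < y) {j : ℤ} {mm : Fin n → ℤ}
    (h : Mem n L ρ W1 W2 x y j mm) :
    ∃ P : Fin n → ℤ, (∀ c, |P c - 4 * (L:ℤ) ^ (2 * n) * mm c| ≤ 4 * (L:ℤ) ^ (2 * n)) ∧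
      ∀ c, |x c - gw L ρ (j - n) * P c| ≤ 2 * (L:ℝ) ^ (2 * n) * ρ * (L:ℝ) ^ (lev L y) := by
  have hL0 : (0:ℝ) < L := by exact_mod_cast (by omega : 0 < L)
  have hL1 : 1 < L := by omega
  have hρp : 0 < ρ := by linarith
  have hyl : y ≤ (L:ℝ) ^ (lev L y) := Int.self_le_zpow_clog hL1 _
  have hLn : (1:ℝ) ≤ (L:ℝ) ^ (2 * n) := one_le_pow_L hL _
  have hLl : 0 < (L:ℝ) ^ (lev L y) := zpow_pos hL0 _
  have hbig : ρ * (L:ℝ) ^ (lev L y) ≤ 2 * (L:ℝ) ^ (2 * n) * ρ * (L:ℝ) ^ (lev L y) := by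
    have : ρ * (L:ℝ) ^ (lev L y) * 1 ≤ ρ * (L:ℝ) ^ (lev L y) * (2 * (L:ℝ) ^ (2 * n)) := by
      apply mul_le_mul_of_nonneg_left (by linarith) (by positivity)
    linarith
  have hgj : 0 < gw L ρ (j - n) := gw_pos hL hρp _
  -- conversion of the distance bound
  have hconv : ∀ (p : ℝ) (P m : ℤ), p = gw L ρ (j - n) * P → |p - cs n L ρ j * m| ≤ cs n L ρ j →
      |P - 4 * (L:ℤ) ^ (2 * n) * m| ≤ 4 * (L:ℤ) ^ (2 * n) := by
    intro p P m hp hd
    rw [cs_eq hL, hp] at hd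
    have e : gw L ρ (j - n) * (P:ℝ) - 4 * (L:ℝ) ^ (2 * n) * gw L ρ (j - n) * m =
        gw L ρ (j - n) * ((P - 4 * (L:ℤ) ^ (2 * n) * m : ℤ) : ℝ) := by push_cast; ring
    rw [e, abs_mul, abs_of_pos hgj] at hd
    have h2 : |((P - 4 * (L:ℤ) ^ (2 * n) * m : ℤ) : ℝ)| ≤ 4 * (L:ℝ) ^ (2 * n) := by
      by_contra hcon
      push Not at hcon
      nlinarith
    have h3 : ((|P - 4 * (L:ℤ) ^ (2 * n) * m| : ℤ) : ℝ) ≤ ((4 * (L:ℤ) ^ (2 * n) : ℤ) : ℝ) := by
      rw [Int.cast_abs]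
      push_cast at h2 ⊢
      exact h2
    exact_mod_cast h3
  rcases h with ⟨q, p, ⟨σ, hσ, hline⟩, hq, hd, hl⟩ | ⟨q, p, ⟨σ, hσ, hline⟩, hq, hd1, hd2, hj, hmm⟩ | ⟨_, hl⟩
  · have hjq1 := hl.1
    have hjq2 := hl.2.1
    have hP : ∀ c, ∃ P : ℤ, p c = gw L ρ (j - n) * P := fun c =>
      line_lattice hL (by omega) (hline c)
    choose P hP using hP
    have hxp : ∀ c, |x c - p c| ≤ W1 * y := fun c => by
      rw [← Real.dist_eq]; exact (dist_le_pi_dist x p c).trans hd.le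
    refine ⟨P, fun c => ?_, fun c => ?_⟩
    · apply hconv (p c) (P c) (mm c) (hP c)
      have h1 := cell_near (n := n) hL hρp j (x c)
      rw [← hl.2.2.2.1 c] at h1
      have h2 := hxp c
      have h3 := abs_sub_le (p c) (x c) (cs n L ρ j * mm c)
      rw [abs_sub_comm (p c) (x c)] at h3
      have h4 : W1 * y ≤ gw L ρ j := by
        have : (L:ℝ) ^ (lev L y) ≤ (L:ℝ)^j := zpow_le_zpow_right₀ (by
          exact_mod_cast (by omega : 1 ≤ L)) (by omega)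
        calc W1 * y ≤ ρ * y := by nlinarith
          _ ≤ ρ * (L:ℝ)^j := by apply mul_le_mul_of_nonneg_left _ hρp.le; linarith
          _ = gw L ρ j := rfl
      have h5 := gw_le_cs (n := n) hL hρp j
      have h6 := gw_pos hL hρp j
      linarith
    · rw [← hP c]
      calc |x c - p c| ≤ W1 * y := hxp c
        _ ≤ ρ * (L:ℝ) ^ (lev L y) := by
            apply mul_le_mul (by linarith) hyl hy.le hρp.le
        _ ≤ _ := hbig
  · have hP : ∀ c, ∃ P : ℤ, p c = gw L ρ (j - n) * P := fun c =>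
      line_lattice hL (by omega) (hline c)
    choose P hP using hP
    have hxp : ∀ c, |x c - p c| ≤ W2 * y := fun c => by
      rw [← Real.dist_eq]; exact (dist_le_pi_dist x p c).trans hd2.le
    refine ⟨P, fun c => ?_, fun c => ?_⟩
    · apply hconv (p c) (P c) (mm c) (hP c)
      have h1 := cell_near (n := n) hL hρp j (p c)
      rw [hmm c, ← hj]
      have := cs_pos (n := n) hL hρp j
      linarith
    · rw [← hP c]
      calc |x c - p c| ≤ W2 * y := hxp c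
        _ ≤ ρ * (L:ℝ) ^ (lev L y) := by
            apply mul_le_mul (by linarith) hyl hy.le hρp.le
        _ ≤ _ := hbig
  · have hjq1 := hl.1
    have hjq2 := hl.2.1
    refine ⟨fun c => 4 * (L:ℤ) ^ (2 * n) * mm c, fun c => ?_, fun c => ?_⟩
    · simp only [sub_self, abs_zero]; positivity
    · have h1 := cell_near (n := n) hL hρp j (x c)
      rw [← hl.2.2.2.1 c] at h1
      have e : gw L ρ (j - n) * ((4 * (L:ℤ) ^ (2 * n) * mm c : ℤ) : ℝ) = cs n L ρ j * mm c := by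
        rw [cs_eq hL]; push_cast; ring
      rw [e]
      refine h1.trans ?_
      have h2 : gw L ρ j ≤ (L:ℝ)^n * gw L ρ (lev L y) := by
        rw [← gw_add hL]; exact gw_mono hL hρp hjq2
      have h3 : (L:ℝ) ^ (2 * n) = (L:ℝ)^n * (L:ℝ)^n := by rw [← pow_add]; congr 1; ring
      unfold cs
      rw [h3]
      have h4 : (0:ℝ) < (L:ℝ)^n := by positivity
      have h5 : gw L ρ (lev L y) = ρ * (L:ℝ) ^ (lev L y) := rfl
      rw [h5] at h2
      nlinarith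

end Pool.Agent.HypAsdim
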