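import Pool.Agent.Lib_helper71.HypAsdim.Defs
import Pool.Agent.Lib_helper71.HypAsdim.Slice

set_option autoImplicit false

/-!
The upper bound for the asymptotic dimension of hyperbolic space with linear growth control.
-/

noncomputable section

namespace Pool.Agent.HypAsdim

open Set Metric Filter Topology
open scoped ENNReal NNReal

namespace Hyp

variable {d : ℕ}

lemma sq_le_of_dist_le {p q : Hyp d} {r : ℝ} (hr : dist p q ≤ r) :
    ‖p.hor - q.hor‖ ^ 2 + (p.ht - q.ht) ^ 2 ≤ 2 * p.ht * q.ht * (Real.cosh r - 1) := by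
  have h1 := p.ht_pos
  have h2 := q.ht_pos
  have h0 : 0 ≤ dist p q := dist_nonneg
  have h3 : Real.cosh (dist p q) ≤ Real.cosh r := by
    rw [Real.cosh_le_cosh, abs_of_nonneg h0, abs_of_nonneg (h0.trans hr)]
    exact hr
  rw [cosh_dist] at h3
  have h4 : (‖p.hor - q.hor‖ ^ 2 + (p.ht - q.ht) ^ 2) / (2 * p.ht * q.ht) ≤ Real.cosh r - 1 := by
    linarith
  rw [div_le_iff₀ (by positivity)] at h4
  linarith

lemma ht_le_of_dist_le {p q : Hyp d} {r : ℝ} (hr : dist p q ≤ r) :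
    p.ht ≤ Real.exp r * q.ht := by
  have h1 := p.ht_pos
  have h2 := q.ht_pos
  have h := sq_le_of_dist_le hr
  have hr0 : 0 ≤ r := dist_nonneg.trans hr
  rw [Real.cosh_eq] at h
  have he : 1 ≤ Real.exp r := Real.one_le_exp hr0
  have he2 : Real.exp r * Real.exp (-r) = 1 := by rw [← Real.exp_add]; simp
  have he3 : 0 < Real.exp (-r) := Real.exp_pos _
  have he4 : Real.exp (-r) ≤ 1 := by nlinarith
  by_contra hcon
  push Not at hcon
  have h5 : (p.ht - Real.exp r * q.ht) * (p.ht - Real.exp (-r) * q.ht) ≤ 0 := by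
    have : (p.ht - Real.exp r * q.ht) * (p.ht - Real.exp (-r) * q.ht) =
        p.ht ^ 2 + (Real.exp r * Real.exp (-r)) * q.ht ^ 2 -
          (Real.exp r + Real.exp (-r)) * (p.ht * q.ht) := by ring
    rw [this, he2]
    nlinarith [sq_nonneg ‖p.hor - q.hor‖]
  have h6 : 0 < p.ht - Real.exp r * q.ht := by linarith
  have h7 : 0 < p.ht - Real.exp (-r) * q.ht := by nlinarith
  have := mul_pos h6 h7
  linarith

lemma hor_le_of_dist_le {p q : Hyp d} {r : ℝ} (hr : dist p q ≤ r) :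
    ‖p.hor - q.hor‖ ≤ Real.exp r * q.ht := by
  have h1 := p.ht_pos
  have h2 := q.ht_pos
  have h := sq_le_of_dist_le hr
  have h3 := ht_le_of_dist_le hr
  have hr0 : 0 ≤ r := dist_nonneg.trans hr
  have he : 1 ≤ Real.exp r := Real.one_le_exp hr0
  have he2 : Real.exp r * Real.exp (-r) = 1 := by rw [← Real.exp_add]; simp
  have he3 : 0 < Real.exp (-r) := Real.exp_pos _
  have hc : 1 ≤ Real.cosh r := Real.one_le_cosh r
  have h4 : ‖p.hor - q.hor‖ ^ 2 ≤ (Real.exp r * q.ht) ^ 2 := by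
    have h5 : ‖p.hor - q.hor‖ ^ 2 ≤ 2 * (Real.exp r * q.ht) * q.ht * (Real.cosh r - 1) := by
      have : 2 * p.ht * q.ht * (Real.cosh r - 1) ≤
          2 * (Real.exp r * q.ht) * q.ht * (Real.cosh r - 1) := by
        apply mul_le_mul_of_nonneg_right _ (by linarith)
        apply mul_le_mul_of_nonneg_right _ h2.le
        linarith
      nlinarith [sq_nonneg (p.ht - q.ht)]
    have h6 : 2 * (Real.exp r * q.ht) * q.ht * (Real.cosh r - 1) =
        (Real.exp r ^ 2 + Real.exp r * Real.exp (-r) - 2 * Real.exp r) * q.ht ^ 2 := by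
      rw [Real.cosh_eq]; ring
    rw [h6, he2] at h5
    have h7 : (Real.exp r ^ 2 + 1 - 2 * Real.exp r) * q.ht ^ 2 ≤ Real.exp r ^ 2 * q.ht ^ 2 := by
      apply mul_le_mul_of_nonneg_right _ (by positivity)
      linarith
    calc _ ≤ _ := h5
      _ ≤ _ := h7
      _ = _ := by ring
  exact (sq_le_sq₀ (norm_nonneg _) (by positivity)).mp h4

lemma dist_lt_of_sq_lt {p q : Hyp d} {ε : ℝ} (hε : 0 < ε)
    (h : ‖p.hor - q.hor‖ ^ 2 + (p.ht - q.ht) ^ 2 < ε ^ 2 * (p.ht * q.ht)) : dist p q < ε := by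
  have h1 := p.ht_pos
  have h2 := q.ht_pos
  have h3 : Real.cosh (dist p q) < Real.cosh ε := by
    rw [cosh_dist]
    have h4 : (‖p.hor - q.hor‖ ^ 2 + (p.ht - q.ht) ^ 2) / (2 * p.ht * q.ht) < ε ^ 2 / 2 := by
      rw [div_lt_iff₀ (by positivity)]
      nlinarith
    have h5 : 1 + ε ^ 2 / 2 ≤ Real.cosh ε := by
      have h6 := Real.cosh_two_mul (ε / 2)
      rw [mul_div_cancel₀ _ (two_ne_zero), Real.cosh_sq] at h6
      have h7 : ε / 2 ≤ Real.sinh (ε / 2) := Real.self_le_sinh_iff.mpr (by linarith)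
      nlinarith
    linarith
  rw [Real.cosh_lt_cosh, abs_of_nonneg dist_nonneg, abs_of_pos hε] at h3
  exact h3

end Hyp

/-- the horizontal coordinates as a plain function -/
def hc {d : ℕ} (p : Hyp d) : Fin (d - 1) → ℝ := fun c => p.hor c

lemma dist_hc_le {d : ℕ} (p q : Hyp d) : dist (hc p) (hc q) ≤ ‖p.hor - q.hor‖ := by
  rw [dist_pi_le_iff (norm_nonneg _)]
  intro c
  have := PiLp.norm_apply_le (p.hor - q.hor) c
  simpa [hc, Real.dist_eq] using this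

lemma norm_sq_le {d : ℕ} (p q : Hyp d) {δ : ℝ} (h : ∀ c, |hc p c - hc q c| ≤ δ) :
    ‖p.hor - q.hor‖ ^ 2 ≤ (d : ℝ) * δ ^ 2 := by
  rw [EuclideanSpace.norm_sq_eq]
  calc ∑ i, ‖(p.hor - q.hor) i‖ ^ 2 ≤ ∑ _i : Fin (d - 1), δ ^ 2 := by
        apply Finset.sum_le_sum
        intro i _
        have h1 := h i
        have h2 : ‖(p.hor - q.hor) i‖ = |hc p i - hc q i| := by simp [hc]
        rw [h2]
        exact pow_le_pow_left₀ (abs_nonneg _) h1 2
    _ = ((d - 1 : ℕ) : ℝ) * δ ^ 2 := by simp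
    _ ≤ (d : ℝ) * δ ^ 2 := by
        apply mul_le_mul_of_nonneg_right _ (sq_nonneg _)
        exact_mod_cast Nat.sub_le d 1

/-- a box of bounded shape contains boundedly many points of a uniformly discrete set -/
lemma box_bound {d L : ℕ} (hL : 4 ≤ L) (Θ ε : ℝ) (hε : 0 < ε) : ∃ M : ℕ,
    ∀ (A : Set (Hyp d)) (u : Fin (d - 1) → ℝ) (t : ℤ),
      (∀ p ∈ A, ∀ q ∈ A, p ≠ q → ε ≤ dist p q) →
      (∀ p ∈ A, lev L p.ht = t ∧ ∀ c, |hc p c - u c| ≤ Θ * (L:ℝ) ^ t) → A.encard ≤ M := by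
  have hL0 : (0:ℝ) < L := by exact_mod_cast (by omega : 0 < L)
  have hL1 : 1 < L := by omega
  set η : ℝ := ε / (2 * ((d:ℝ) + 1) * L) with hη
  have hηp : 0 < η := by positivity
  have hη2 : ((d:ℝ) + 1) * η ^ 2 * (L:ℝ) ^ 2 < ε ^ 2 := by
    have hd : (0:ℝ) < (d:ℝ) + 1 := by positivity
    have : ((d:ℝ) + 1) * η ^ 2 * (L:ℝ) ^ 2 = ε ^ 2 / (4 * ((d:ℝ) + 1)) := by
      rw [hη]; field_simp; ring
    rw [this, div_lt_iff₀ (by positivity)]
    have h1 : (1:ℝ) ≤ (d:ℝ) + 1 := by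
      have : (0:ℝ) ≤ d := Nat.cast_nonneg d
      linarith
    nlinarith [sq_pos_of_pos hε]
  set N1 : ℤ := ⌈Θ / η⌉ with hN1
  set N2 : ℤ := ⌈1 / η⌉ with hN2
  classical
  let B : Finset ((Fin (d - 1) → ℤ) × ℤ) :=
    (Fintype.piFinset (fun _ => Finset.Icc (-N1 - 1) (N1 + 1))) ×ˢ Finset.Icc 0 N2
  refine ⟨B.card, fun A u t hA hbox => ?_⟩
  have hLt : 0 < (L:ℝ) ^ t := zpow_pos hL0 t
  let F : Hyp d → (Fin (d - 1) → ℤ) × ℤ := fun p =>
    (fun c => ⌊(hc p c - u c) / (η * (L:ℝ) ^ t)⌋, ⌊p.ht / (η * (L:ℝ) ^ t)⌋)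
  have hfl : ∀ a b : ℝ, ⌊a / (η * (L:ℝ) ^ t)⌋ = ⌊b / (η * (L:ℝ) ^ t)⌋ →
      |a - b| ≤ η * (L:ℝ) ^ t := by
    intro a b hab
    have hpos : 0 < η * (L:ℝ) ^ t := by positivity
    have h1 := Int.abs_sub_lt_one_of_floor_eq_floor hab
    have h2 : a / (η * (L:ℝ) ^ t) - b / (η * (L:ℝ) ^ t) = (a - b) / (η * (L:ℝ) ^ t) := by ring
    rw [h2, abs_div, abs_of_pos hpos, div_lt_one hpos] at h1
    exact h1.le
  have hinj : InjOn F A := by
    intro p hp q hq hpq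
    by_contra hne
    have h1 := hA p hp q hq hne
    have hF1 : ∀ c, ⌊(hc p c - u c) / (η * (L:ℝ) ^ t)⌋ = ⌊(hc q c - u c) / (η * (L:ℝ) ^ t)⌋ :=
      fun c => congrFun (congrArg Prod.fst hpq) c
    have hF2 : ⌊p.ht / (η * (L:ℝ) ^ t)⌋ = ⌊q.ht / (η * (L:ℝ) ^ t)⌋ := congrArg Prod.snd hpq
    have h2 : ∀ c, |hc p c - hc q c| ≤ η * (L:ℝ) ^ t := by
      intro c
      have := hfl _ _ (hF1 c)
      rwa [sub_sub_sub_cancel_right] at this
    have h3 := norm_sq_le p q h2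
    have h4 := hfl _ _ hF2
    have h5 : (p.ht - q.ht) ^ 2 ≤ (η * (L:ℝ) ^ t) ^ 2 := by
      rw [← sq_abs (p.ht - q.ht)]
      exact pow_le_pow_left₀ (abs_nonneg _) h4 2
    have hlow : ∀ p : Hyp d, lev L p.ht = t → (L:ℝ) ^ t < L * p.ht := by
      intro p hp
      have h6 : (L:ℝ) ^ (lev L p.ht - 1) < p.ht := Int.zpow_pred_clog_lt_self hL1 p.ht_pos
      rw [hp, zpow_sub₀ hL0.ne', zpow_one, div_lt_iff₀ hL0] at h6
      linarith
    have h6 := hlow p (hbox p hp).1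
    have h7 := hlow q (hbox q hq).1
    have h8 : dist p q < ε := by
      apply Hyp.dist_lt_of_sq_lt hε
      have h9 : ‖p.hor - q.hor‖ ^ 2 + (p.ht - q.ht) ^ 2 ≤
          ((d:ℝ) + 1) * η ^ 2 * ((L:ℝ) ^ t) ^ 2 := by nlinarith
      have hp0 := p.ht_pos
      have hq0 := q.ht_pos
      have h10 : ((L:ℝ) ^ t) ^ 2 ≤ (L * p.ht) * (L * q.ht) := by
        have : (L:ℝ) ^ t * (L:ℝ) ^ t ≤ (L * p.ht) * (L * q.ht) :=
          mul_le_mul h6.le h7.le hLt.le (by positivity)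
        nlinarith
      calc ‖p.hor - q.hor‖ ^ 2 + (p.ht - q.ht) ^ 2 ≤
            ((d:ℝ) + 1) * η ^ 2 * ((L:ℝ) ^ t) ^ 2 := h9
        _ ≤ ((d:ℝ) + 1) * η ^ 2 * ((L * p.ht) * (L * q.ht)) := by
            apply mul_le_mul_of_nonneg_left h10 (by positivity)
        _ = (((d:ℝ) + 1) * η ^ 2 * (L:ℝ) ^ 2) * (p.ht * q.ht) := by ring
        _ < ε ^ 2 * (p.ht * q.ht) := by
            apply mul_lt_mul_of_pos_right hη2 (by positivity)
    linarith
  have hmaps : MapsTo F A B := by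
    intro p hp
    obtain ⟨hl, hb⟩ := hbox p hp
    have hpos : 0 < η * (L:ℝ) ^ t := by positivity
    simp only [B, Finset.coe_product, mem_prod, Finset.mem_coe, Fintype.mem_piFinset,
      Finset.mem_Icc, F]
    refine ⟨fun c => ?_, ?_, ?_⟩
    · have h1 : |(hc p c - u c) / (η * (L:ℝ) ^ t)| ≤ Θ / η := by
        rw [abs_div, abs_of_pos hpos, div_le_div_iff₀ hpos hηp]
        have := hb c
        nlinarith
      have h2 : Θ / η ≤ N1 := Int.le_ceil _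
      rw [abs_le] at h1
      constructor
      · apply Int.le_floor.mpr
        push_cast
        linarith [h1.1]
      · have h3 : ((⌊(hc p c - u c) / (η * (L:ℝ) ^ t)⌋ : ℤ) : ℝ) ≤
            (hc p c - u c) / (η * (L:ℝ) ^ t) := Int.floor_le _
        have h4 : ((⌊(hc p c - u c) / (η * (L:ℝ) ^ t)⌋ : ℤ) : ℝ) ≤ (N1:ℝ) := by linarith [h1.2]
        have h5 : ⌊(hc p c - u c) / (η * (L:ℝ) ^ t)⌋ ≤ N1 := by exact_mod_cast h4
        omega
    · apply Int.floor_nonneg.mpr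
      have := p.ht_pos
      positivity
    · have h1 : p.ht ≤ (L:ℝ) ^ (lev L p.ht) := Int.self_le_zpow_clog hL1 _
      rw [hl] at h1
      have h2 : p.ht / (η * (L:ℝ) ^ t) ≤ 1 / η := by
        rw [div_le_div_iff₀ hpos hηp]
        nlinarith
      have h3 : ((⌊p.ht / (η * (L:ℝ) ^ t)⌋ : ℤ) : ℝ) ≤ p.ht / (η * (L:ℝ) ^ t) := Int.floor_le _
      have h4 : (1:ℝ) / η ≤ N2 := Int.le_ceil _
      exact_mod_cast (by linarith : ((⌊p.ht / (η * (L:ℝ) ^ t)⌋ : ℤ) : ℝ) ≤ (N2:ℝ))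
  calc A.encard = (F '' A).encard := hinj.encard_image.symm
    _ ≤ (B : Set _).encard := encard_le_encard hmaps.image_subset
    _ = (B.card : ℕ∞) := encard_coe_eq_coe_finsetCard _

end Pool.Agent.HypAsdim
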