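import Pool.Agent.Lib_helper71.HypAsdim.Final

set_option autoImplicit false

/-!
Assembly of the upper bound, existence of nets and the comparison of growth classes.
-/

noncomputable section

namespace Pool.Agent.HypAsdim

open Set Metric Filter Topology
open scoped ENNReal NNReal

lemma encard_biUnion_le {α β : Type} (s : Finset α) (A : α → Set β) (M : ℕ)
    (h : ∀ i ∈ s, (A i).encard ≤ M) : (⋃ i ∈ s, A i).encard ≤ ((s.card * M : ℕ) : ℕ∞) := by
  classical
  induction s using Finset.induction_on with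
  | empty => simp
  | insert a s ha ih =>
    rw [Finset.set_biUnion_insert, Finset.card_insert_of_notMem ha]
    calc (A a ∪ ⋃ i ∈ s, A i).encard ≤ (A a).encard + (⋃ i ∈ s, A i).encard :=
          encard_union_le _ _
      _ ≤ (M : ℕ∞) + ((s.card * M : ℕ) : ℕ∞) := by
          gcongr
          · exact h a (Finset.mem_insert_self _ _)
          · exact ih fun i hi => h i (Finset.mem_insert_of_mem hi)
      _ = (((s.card + 1) * M : ℕ) : ℕ∞) := by
          push_cast; ring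

theorem asdimLE_linear {d : ℕ} (hd : 3 ≤ d) (Z : Set (Hyp d))
    (hZ : ∃ ε : ℝ, 0 < ε ∧ ∀ x ∈ Z, ∀ y ∈ Z, x ≠ y → ε ≤ dist x y) :
    AsdimLE linearFns Z (d - 1) := by
  classical
  obtain ⟨ε, hε, hsep⟩ := hZ
  intro r hr
  -- the parameters
  set b : ℝ := Real.exp r with hb
  have hb1 : 1 ≤ b := Real.one_le_exp hr.le
  have hb2 : 1 ≤ b ^ 2 := one_le_pow₀ hb1
  set W1 : ℝ := 2 * b ^ 2 + 1 with hW1
  set W2 : ℝ := b ^ 2 * (W1 + 2) with hW2
  set ρ : ℝ := (W2 + 2) * b ^ 2 + 1 with hρ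
  set L : ℕ := 4 * ⌈b ^ 2⌉₊ with hL
  have hceil : 1 ≤ ⌈b ^ 2⌉₊ := Nat.one_le_ceil_iff.mpr (by linarith)
  have hL4 : 4 ≤ L := by omega
  have hdvd : 4 ∣ L := ⟨_, rfl⟩
  have hbL : b ^ 2 ≤ L := by
    have h1 : b ^ 2 ≤ (⌈b ^ 2⌉₊ : ℝ) := Nat.le_ceil _
    rw [hL]; push_cast
    have : (0:ℝ) ≤ (⌈b ^ 2⌉₊ : ℝ) := Nat.cast_nonneg _
    linarith
  have hW1p : 0 < W1 := by positivity
  have hW12 : W1 ≤ W2 := by nlinarith
  have hW2p : 0 < W2 := by positivity
  have hW2ρ : W2 < ρ := by nlinarith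
  have hρp : 0 < ρ := by linarith
  have hL0 : (0:ℝ) < L := by exact_mod_cast (by omega : 0 < L)
  have hL1 : 1 < L := by omega
  set n : ℕ := d - 1 with hn
  have hn2 : 2 ≤ n := by omega
  let X : ℤ × (Fin (d - 1) → ℤ) → Set Z := fun s =>
    {z : Z | Mem (d - 1) L ρ W1 W2 (hc z.1) z.1.ht s.1 s.2}
  refine ⟨ℤ × (Fin (d - 1) → ℤ), X, ?_, ?_, ?_⟩
  · -- the members cover
    apply eq_univ_of_forall
    intro z
    obtain ⟨j, mm, h⟩ := exists_mem (n := d - 1) hL4 hdvd hρp W1 W2 (hc z.1) z.1.ht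
    exact mem_iUnion.mpr ⟨(j, mm), h⟩
  · -- multiplicity
    intro z
    have hmul := multiplicity (n := d - 1) (L := L) (ρ := ρ) (W1 := W1) (W2 := W2) (b := b)
      hn2 hL4 hdvd hb1 (by linarith) le_rfl (by linarith) hbL (hc z.1) z.1.ht z.1.ht_pos
    refine le_trans (encard_le_encard ?_) hmul
    rintro s ⟨w, hw1, hw2⟩
    have hdist : dist w.1 z.1 ≤ r := by
      have := mem_closedBall.mp hw2
      rwa [Subtype.dist_eq] at this
    refine ⟨hc w.1, w.1.ht, ?_, ?_, ?_, hw1⟩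
    · exact (dist_hc_le _ _).trans (Hyp.hor_le_of_dist_le hdist)
    · exact Hyp.ht_le_of_dist_le (by rwa [dist_comm])
    · exact Hyp.ht_le_of_dist_le hdist
  · -- growth
    obtain ⟨M0, hM0⟩ := box_bound (d := d) hL4 (2 * (L:ℝ) ^ (2 * n) * ρ) ε hε
    set K : ℤ := 4 * (L:ℤ) ^ (2 * n) with hK
    set NP : ℕ := (2 * K + 1).toNat ^ n with hNP
    -- sections
    have hsec : ∀ (s : ℤ × (Fin (d - 1) → ℤ)) (t : ℤ),
        ({p : Hyp d | p ∈ Z ∧ Mem (d - 1) L ρ W1 W2 (hc p) p.ht s.1 s.2 ∧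
          lev L p.ht = t}).encard ≤ ((NP * M0 : ℕ) : ℕ∞) := by
      intro s t
      let T : Finset (Fin (d - 1) → ℤ) :=
        Fintype.piFinset (fun c => Finset.Icc (K * s.2 c - K) (K * s.2 c + K))
      have hT : T.card = NP := by
        simp only [T, Fintype.card_piFinset, Int.card_Icc]
        have : ∀ c, (K * s.2 c + K + 1 - (K * s.2 c - K)).toNat = (2 * K + 1).toNat := by
          intro c; congr 1; ring
        simp only [this, Finset.prod_const, Finset.card_univ, Fintype.card_fin, hNP, hn]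
      let A : (Fin (d - 1) → ℤ) → Set (Hyp d) := fun P =>
        {p | p ∈ Z ∧ lev L p.ht = t ∧ ∀ c, |hc p c - gw L ρ (s.1 - n) * P c| ≤
          2 * (L:ℝ) ^ (2 * n) * ρ * (L:ℝ) ^ t}
      have hA : ∀ P ∈ T, (A P).encard ≤ M0 := by
        intro P _
        apply hM0 (A P) (fun c => gw L ρ (s.1 - n) * P c) t
        · intro p hp q hq hpq
          exact hsep p hp.1 q hq.1 hpq
        · intro p hp
          exact ⟨hp.2.1, hp.2.2⟩
      have hsub : {p : Hyp d | p ∈ Z ∧ Mem (d - 1) L ρ W1 W2 (hc p) p.ht s.1 s.2 ∧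
          lev L p.ht = t} ⊆ ⋃ P ∈ T, A P := by
        rintro p ⟨hpZ, hpM, hpt⟩
        obtain ⟨P, hP1, hP2⟩ := slice (n := d - 1) (by omega) hL4 hW1p hW12 hW2ρ p.ht_pos hpM
        simp only [mem_iUnion]
        refine ⟨P, ?_, hpZ, hpt, ?_⟩
        · simp only [T, Fintype.mem_piFinset, Finset.mem_Icc]
          intro c
          have := abs_le.mp (hP1 c)
          constructor <;> [have := this.1; have := this.2] <;> (simp only [hK, hn]; linarith)
        · intro c
          rw [← hpt]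
          exact hP2 c
      calc _ ≤ (⋃ P ∈ T, A P).encard := encard_le_encard hsub
        _ ≤ ((T.card * M0 : ℕ) : ℕ∞) := encard_biUnion_le T A M0 hA
        _ = ((NP * M0 : ℕ) : ℕ∞) := by rw [hT]
    refine ⟨fun t => ((3 * (NP * M0) : ℕ) : ℝ≥0) * (t + 1), ⟨_, fun t => rfl⟩, ?_⟩
    intro s τ
    unfold growth
    apply iSup₂_le
    intro z hz
    set k : ℕ := ⌈(τ : ℝ)⌉₊ with hk
    set t0 : ℤ := lev L z.1.ht with ht0
    -- levels inside the ball
    have hlevs : ∀ w : Z, dist w z ≤ (τ:ℝ) → lev L w.1.ht ≤ lev L z.1.ht + k := by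
      intro w hw
      rw [Subtype.dist_eq] at hw
      have h1 := Hyp.ht_le_of_dist_le hw
      apply (Int.le_zpow_iff_clog_le hL1 w.1.ht_pos).mp
      have h2 : z.1.ht ≤ (L:ℝ) ^ (lev L z.1.ht) := Int.self_le_zpow_clog hL1 _
      have h3 : Real.exp (τ:ℝ) ≤ (L:ℝ) ^ k := by
        calc Real.exp (τ:ℝ) ≤ Real.exp (k:ℝ) := Real.exp_le_exp.mpr (Nat.le_ceil _)
          _ = (Real.exp 1) ^ k := by rw [← Real.exp_nat_mul]; simp
          _ ≤ (L:ℝ) ^ k := by
              apply pow_le_pow_left₀ (Real.exp_pos _).le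
              have h5 : (4:ℝ) ≤ L := by exact_mod_cast hL4
              have := Real.exp_one_lt_d9
              linarith
      rw [zpow_add₀ hL0.ne', zpow_natCast]
      calc w.1.ht ≤ Real.exp (τ:ℝ) * z.1.ht := h1
        _ ≤ (L:ℝ) ^ k * (L:ℝ) ^ (lev L z.1.ht) := by
            apply mul_le_mul h3 h2 z.1.ht_pos.le (by positivity)
        _ = _ := by ring
    have hcard : (X s ∩ closedBall z (τ:ℝ)).encard ≤ (((2 * k + 1) * (NP * M0) : ℕ) : ℕ∞) := by
      let A : ℤ → Set (Hyp d) := fun t =>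
        {p : Hyp d | p ∈ Z ∧ Mem (d - 1) L ρ W1 W2 (hc p) p.ht s.1 s.2 ∧ lev L p.ht = t}
      have h1 : Subtype.val '' (X s ∩ closedBall z (τ:ℝ)) ⊆
          ⋃ t ∈ Finset.Icc (t0 - k) (t0 + k), A t := by
        rintro _ ⟨w, ⟨hw1, hw2⟩, rfl⟩
        simp only [mem_iUnion]
        have hw2' : dist w z ≤ (τ:ℝ) := mem_closedBall.mp hw2
        refine ⟨lev L w.1.ht, ?_, w.2, hw1, rfl⟩
        rw [Finset.mem_Icc]
        have h2 := hlevs w hw2'
        have h3 : lev L z.1.ht ≤ lev L w.1.ht + k := by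
          have h1 := Hyp.ht_le_of_dist_le (p := z.1) (q := w.1) (r := (τ:ℝ)) (by
            rw [dist_comm]; rwa [Subtype.dist_eq] at hw2')
          apply (Int.le_zpow_iff_clog_le hL1 z.1.ht_pos).mp
          have h2 : w.1.ht ≤ (L:ℝ) ^ (lev L w.1.ht) := Int.self_le_zpow_clog hL1 _
          have h3 : Real.exp (τ:ℝ) ≤ (L:ℝ) ^ k := by
            calc Real.exp (τ:ℝ) ≤ Real.exp (k:ℝ) := Real.exp_le_exp.mpr (Nat.le_ceil _)
              _ = (Real.exp 1) ^ k := by rw [← Real.exp_nat_mul]; simp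
              _ ≤ (L:ℝ) ^ k := by
                  apply pow_le_pow_left₀ (Real.exp_pos _).le
                  have h5 : (4:ℝ) ≤ L := by exact_mod_cast hL4
                  have := Real.exp_one_lt_d9
                  linarith
          rw [zpow_add₀ hL0.ne', zpow_natCast]
          calc z.1.ht ≤ Real.exp (τ:ℝ) * w.1.ht := h1
            _ ≤ (L:ℝ) ^ k * (L:ℝ) ^ (lev L w.1.ht) := by
                apply mul_le_mul h3 h2 w.1.ht_pos.le (by positivity)
            _ = _ := by ring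
        constructor <;> omega
      have h2 := encard_biUnion_le (Finset.Icc (t0 - k) (t0 + k)) A (NP * M0)
        (fun t _ => hsec s t)
      have h3 : (Finset.Icc (t0 - k) (t0 + k)).card = 2 * k + 1 := by
        rw [Int.card_Icc]; omega
      rw [h3] at h2
      calc (X s ∩ closedBall z (τ:ℝ)).encard = (Subtype.val '' (X s ∩ closedBall z (τ:ℝ))).encard :=
            (Subtype.val_injective.injOn.encard_image).symm
        _ ≤ _ := encard_le_encard h1
        _ ≤ _ := h2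
    calc ((X s ∩ closedBall z (τ:ℝ)).encard : ℝ≥0∞) ≤
          ((((2 * k + 1) * (NP * M0) : ℕ) : ℕ∞) : ℝ≥0∞) := ENat.toENNReal_le.mpr hcard
      _ = (((((2 * k + 1) * (NP * M0) : ℕ)) : ℝ≥0) : ℝ≥0∞) := by simp
      _ ≤ _ := by
          rw [ENNReal.coe_le_coe]
          rw [← NNReal.coe_le_coe]
          push_cast
          have hk1 : (k:ℝ) ≤ (τ:ℝ) + 1 := (Nat.ceil_lt_add_one τ.coe_nonneg).le
          have hτ : 0 ≤ (τ:ℝ) := τ.coe_nonneg
          have h1 : 2 * (k:ℝ) + 1 ≤ 3 * ((τ:ℝ) + 1) := by linarith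
          have h2 : (0:ℝ) ≤ (NP:ℝ) * (M0:ℝ) := by positivity
          nlinarith

/-- linear functions are `o(poly(d))` for `d ≥ 2` -/
lemma linearFns_subset {d : ℕ} (hd : 2 ≤ d) : linearFns ⊆ littleOPoly d := by
  rintro f ⟨C, hf⟩
  constructor
  · intro s t hst
    rw [hf, hf]
    gcongr
  · have h1 : Tendsto (fun t : ℝ≥0 => 2 * C * t⁻¹) atTop (𝓝 0) := by
      have : Tendsto (fun t : ℝ≥0 => t⁻¹) atTop (𝓝 0) := tendsto_inv_atTop_zero
      simpa using this.const_mul (2 * C)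
    apply tendsto_of_tendsto_of_tendsto_of_le_of_le' tendsto_const_nhds h1
    · exact Eventually.of_forall fun t => zero_le
    · filter_upwards [eventually_ge_atTop (1:ℝ≥0)] with t ht
      rw [hf]
      have ht0 : 0 < t := lt_of_lt_of_le one_pos ht
      rw [div_le_iff₀ (by positivity)]
      calc C * (t + 1) ≤ C * (t + t) := by gcongr
        _ = 2 * C * t⁻¹ * t ^ 2 := by field_simp; ring
        _ ≤ 2 * C * t⁻¹ * t ^ d := by
            gcongr

lemma AsdimLE.mono {F F' : Set (ℝ≥0 → ℝ≥0)} (h : F ⊆ F') {Z : Type} [MetricSpace Z] {n : ℕ}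
    (hn : AsdimLE F Z n) : AsdimLE F' Z n := by
  intro r hr
  obtain ⟨ι, X, h1, h2, f, hf, h3⟩ := hn r hr
  exact ⟨ι, X, h1, h2, f, h hf, h3⟩

lemma asdim_anti {F F' : Set (ℝ≥0 → ℝ≥0)} (h : F ⊆ F') (Z : Type) [MetricSpace Z] :
    asdim F' Z ≤ asdim F Z := by
  unfold asdim
  apply le_iInf₂
  intro n hn
  exact iInf₂_le n (hn.mono h)

lemma asdim_le {F : Set (ℝ≥0 → ℝ≥0)} {Z : Type} [MetricSpace Z] {n : ℕ}
    (hn : AsdimLE F Z n) : asdim F Z ≤ n := iInf₂_le n hn

/-- nets exist in every metric space -/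
lemma exists_net (X : Type) [MetricSpace X] : ∃ Z : Set X, IsNet Z := by
  -- a maximal 1-separated set
  obtain ⟨Z, hZ⟩ : ∃ Z : Set X, Maximal (fun Z : Set X =>
      ∀ x ∈ Z, ∀ y ∈ Z, x ≠ y → (1:ℝ) ≤ dist x y) Z := by
    apply zorn_subset
    intro c hc hchain
    refine ⟨⋃₀ c, ?_, fun s hs => subset_sUnion_of_mem hs⟩
    rintro x ⟨s, hs, hx⟩ y ⟨s', hs', hy⟩ hxy
    rcases hchain.total hs hs' with h | h
    · exact hc hs' x (h hx) y hy hxy
    · exact hc hs x hx y (h hy) hxy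
  refine ⟨Z, ⟨1, one_pos, hZ.1⟩, 1, fun x => ?_⟩
  by_contra hcon
  push Not at hcon
  have hins : ∀ u ∈ insert x Z, ∀ v ∈ insert x Z, u ≠ v → (1:ℝ) ≤ dist u v := by
    intro u hu v hv huv
    rcases mem_insert_iff.mp hu with hu' | hu' <;> rcases mem_insert_iff.mp hv with hv' | hv'
    · exact absurd (hu'.trans hv'.symm) huv
    · rw [hu']; exact (hcon v hv').le
    · rw [hv', dist_comm]; exact (hcon u hu').le
    · exact hZ.1 u hu' v hv' huv
  have hxZ : x ∈ Z := hZ.2 hins (subset_insert _ _) (mem_insert _ _)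
  have := hcon x hxZ
  rw [dist_self] at this
  linarith

end Pool.Agent.HypAsdim
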